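import Pool.Agent.SPT.Qnt
import Pool.Agent.SPA.All

/-!
SPT (MP_315051_nt): assembly.
-/

set_option autoImplicit false

open Finset

namespace Pool.Agent.SPT

open Pool.Agent.SPA
open Pool.Agent.Tri5 (p_MER)

/-- A lower bound for all the densities is at most `K`. -/
theorem inf_le (K : ℝ) (h : ∀ ε : ℝ, 0 < ε → ∃ P : Finset ℕ, (∀ p ∈ P, p.Prime) ∧ ∃ x0 : ℕ,
      ∀ x ≥ x0, cnt (fun k => Odd k ∧ ¬ CoveredBy P k) x ≤ (K + ε) * x) (K' : ℝ)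
    (hK' : ∀ L : ℕ, 1 ≤ L → K' ≤ dens L) : K' ≤ K := by
  apply le_of_forall_pos_le_add
  intro ε hε
  obtain ⟨P, hP, x0, hx⟩ := h (ε / 2) (by positivity)
  obtain ⟨L, hL, hPL⟩ := exists_L P hP
  obtain ⟨x, hx1⟩ : ∃ x : ℕ, x = x0 + ⌈(MM L + 1 : ℝ) / (ε / 2)⌉₊ + 1 := ⟨_, rfl⟩
  have hxe : (MM L + 1 : ℝ) ≤ ε / 2 * x := by
    have h5 : (MM L + 1 : ℝ) / (ε / 2) ≤ x :=
      (Nat.le_ceil _).trans (by exact_mod_cast (by omega : ⌈(MM L + 1 : ℝ) / (ε / 2)⌉₊ ≤ x))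
    rw [div_le_iff₀ (by positivity)] at h5
    linarith
  have h6 := (abs_le.1 (p_DEN L hL x)).1
  have h7 : cnt (fun k => Odd k ∧ Opn L k) x ≤ cnt (fun k => Odd k ∧ ¬ CoveredBy P k) x :=
    cnt_mono (fun k hk => ⟨hk.1, not_of_opn hPL hk.2⟩) x
  have h8 := hx x (by omega)
  have hx0 : (0 : ℝ) < x := by exact_mod_cast (by omega : 0 < x)
  have h9 : K' * x ≤ dens L * x := mul_le_mul_of_nonneg_right (hK' L hL) hx0.le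
  have h10 : K' * x ≤ (K + ε) * x := by
    have e : (K + ε) * (x : ℝ) = (K + ε / 2) * x + ε / 2 * x := by ring
    rw [e]
    linarith
  exact le_of_mul_le_mul_right h10 hx0

/-- The sieve density, and primes with small exponents. -/
theorem c_all : ∃ K : ℝ, 0 < K ∧
    (∀ P : Finset ℕ, (∀ p ∈ P, p.Prime) → ∀ ε : ℝ, 0 < ε → ∃ x0 : ℕ, ∀ x ≥ x0,
      (K - ε) * x ≤ cnt (fun k => Odd k ∧ ¬ CoveredBy P k) x) ∧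
    (∀ ε : ℝ, 0 < ε → ∃ P : Finset ℕ, (∀ p ∈ P, p.Prime) ∧ ∃ x0 : ℕ, ∀ x ≥ x0,
      cnt (fun k => Odd k ∧ ¬ CoveredBy P k) x ≤ (K + ε) * x) ∧
    (∀ ε : ℝ, 0 < ε → ∃ c0 : ℝ, 0 < c0 ∧ ∀ c : ℝ, 0 < c → c ≤ c0 → ∃ x0 : ℕ, ∀ x ≥ x0,
      |cnt (fun k => Odd k ∧ NoSmall c k) x - K * x| ≤ ε * x) ∧
    (∀ ε : ℝ, 0 < ε → ∃ x0 : ℕ, ∀ x ≥ x0, cnt (fun k => Odd k ∧ HasPrime k) x ≤ (K + ε) * x) ∧
    ∃ C : ℝ, 0 < C ∧ ∀ A : ℝ, 0 < A → ∃ x0 : ℕ, ∀ x ≥ x0,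
      cnt (fun k => Odd k ∧ PrimeLog A x k) x ≤
        (K - Real.exp (-(C * (A + 1)))) * x := by
  obtain ⟨K, h0, h1, h2, h3, h4⟩ := b_all
  exact ⟨K, h0, h1, h2, h3, h4, thmQ p_MER sh_all fl_all p_RH1 (p_RH2 p_RH1) p_PR2 p_OPC
    p_DEN K (inf_le K h2)⟩

end Pool.Agent.SPT
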