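import Mathlib

/-!
SPT (MP_315051_nt): the Fermat class `k ≡ 1 (mod 2 ^ (2 ^ J) - 1)`.
-/

set_option autoImplicit false

namespace Pool.Agent.SPT

theorem fer {J k n : ℕ} (hn : 1 ≤ n) (hk : k ≡ 1 [MOD 2 ^ 2 ^ J - 1]) (hk1 : 1 < k)
    (hd : ¬ 2 ^ J ∣ n) : ¬ (k * 2 ^ n + 1).Prime := by
  intro hp
  obtain ⟨v, m, hm, hnv⟩ := Nat.exists_eq_two_pow_mul_odd (n := n) (by omega)
  have hv : v < J := by
    by_contra hc
    apply hd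
    rw [hnv]
    exact (pow_dvd_pow 2 (not_lt.1 hc)).mul_right m
  obtain ⟨F, hF⟩ : ∃ F : ℕ, F = 2 ^ 2 ^ v + 1 := ⟨_, rfl⟩
  have h1 : F ∣ 2 ^ n + 1 := by
    have := Odd.nat_add_dvd_pow_add_pow (2 ^ 2 ^ v) 1 hm
    rwa [one_pow, ← pow_mul, ← hnv, ← hF] at this
  have h2 : F ∣ 2 ^ 2 ^ J - 1 := by
    have e1 : F ∣ 2 ^ 2 ^ (v + 1) - 1 := by
      have e2 : 2 ^ 2 ^ (v + 1) - 1 = F * (2 ^ 2 ^ v - 1) := by
        rw [hF, pow_succ, pow_mul]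
        have := Nat.sq_sub_sq (2 ^ 2 ^ v) 1
        rw [one_pow] at this
        exact this
      rw [e2]
      exact dvd_mul_right _ _
    refine e1.trans ?_
    obtain ⟨c, hc⟩ : 2 ^ (v + 1) ∣ 2 ^ J := pow_dvd_pow 2 hv
    rw [hc, pow_mul]
    have := Nat.sub_dvd_pow_sub_pow (2 ^ 2 ^ (v + 1)) 1 c
    rwa [one_pow] at this
  have hW1 : 2 ≤ 2 ^ 2 ^ J := by
    have : 1 ≤ 2 ^ J := Nat.one_le_two_pow
    calc 2 = 2 ^ 1 := rfl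
      _ ≤ 2 ^ 2 ^ J := Nat.pow_le_pow_right (by norm_num) this
  have h3 : 2 ^ 2 ^ J - 1 ∣ k - 1 := (Nat.modEq_iff_dvd' hk1.le).1 hk.symm
  have h4 : F ∣ k * 2 ^ n + 1 := by
    have e1 : k * 2 ^ n + 1 = (k - 1) * 2 ^ n + (2 ^ n + 1) := by
      obtain ⟨k', rfl⟩ : ∃ k', k = k' + 1 := ⟨k - 1, by omega⟩
      rw [Nat.add_sub_cancel]
      ring
    rw [e1]
    exact dvd_add ((h2.trans h3).mul_right _) h1
  have h5 : 2 ^ 2 ^ J - 1 ≤ k - 1 := Nat.le_of_dvd (by omega) h3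
  have h6 : F ≤ 2 ^ 2 ^ J - 1 := Nat.le_of_dvd (by omega) h2
  have h7 : F ≠ 1 := by
    rw [hF]
    have : 0 < 2 ^ 2 ^ v := by positivity
    omega
  have h8 : F = k * 2 ^ n + 1 := ((Nat.dvd_prime hp).1 h4).resolve_left h7
  have h9 : k ≤ k * 2 ^ n := Nat.le_mul_of_pos_right k (by positivity)
  omega

end Pool.Agent.SPT
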