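import Pool.Agent.SPT.Sum
import Pool.Agent.Tri5.MER

/-!
SPT (MP_315051_nt): the Romanoff series of `2 ^ L`, `L = 2 ^ J`, is bounded.
-/

set_option autoImplicit false

open Finset
open Pool.Agent.Tri5 (T_MER)

namespace Pool.Agent.SPT

open Pool.Agent.SPA
open GS2_

/-- The product over the primes of small order. -/
theorem prodJ (h1 : T_MER) : ∃ C : ℝ, 0 < C ∧ ∀ (J n : ℕ) (S : Finset ℕ),
    (∀ p ∈ S, p.Prime ∧ 2 < p) →
    ∏ p ∈ Sj S (2 ^ J) (2 ^ n), (1 + 1 / ((p : ℝ) - 1)) ≤ C * (3 / 2) ^ n := by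
  classical
  obtain ⟨C1, hC1, hM⟩ := h1
  refine ⟨24 * C1, by positivity, fun J n S hS => ?_⟩
  have hl2 : 0 < Real.log 2 := Real.log_pos (by norm_num)
  obtain ⟨T, hT⟩ : ∃ T, T = Sj S (2 ^ J) (2 ^ n) := ⟨_, rfl⟩
  rw [← hT]
  obtain ⟨φ, hφ⟩ : ∃ φ : ℕ → Prop, φ = fun p => ∃ i, 4 ≤ i ∧ 2 ^ i ∣ p - 1 ∧
    ∃ e, 1 ≤ e ∧ e ≤ 2 ^ n ∧ p ∣ 2 ^ (2 ^ i * e) - 1 := ⟨_, rfl⟩
  have hTp : ∀ p ∈ T, p.Prime ∧ 2 < p ∧
      ∃ i, 2 ^ i ∣ p - 1 ∧ ∃ e, 1 ≤ e ∧ e ≤ 2 ^ n ∧ p ∣ 2 ^ (2 ^ i * e) - 1 := by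
    intro p hp
    rw [hT] at hp
    unfold Sj at hp
    rw [mem_filter] at hp
    obtain ⟨e, he, hd⟩ := (Prime.dvd_finsetProd_iff (hS p hp.1).1.prime _).1 hp.2
    rw [mem_Icc] at he
    exact ⟨(hS p hp.1).1, (hS p hp.1).2,
      ordJ J (2 ^ n) p e (hS p hp.1).1 (hS p hp.1).2 he.1 he.2 hd⟩
  have hE : ((2 ^ n : ℕ) : ℝ) = 2 ^ n := by push_cast; ring
  have hlE : Real.log ((2 ^ n : ℕ) : ℝ) = n * Real.log 2 := by rw [hE, Real.log_pow]
  -- large orders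
  have a1 : ∏ p ∈ T.filter φ, (1 + 1 / ((p : ℝ) - 1)) ≤ 3 * (6 / 5) ^ n := by
    have b1 : ∑ p ∈ T.filter φ, 1 / ((p : ℝ) - 1) ≤ 1 + n * (Real.log 2 / 4) := by
      have := sumI (T.filter φ) 4 (2 ^ n) Nat.one_le_two_pow (fun p hp => by
        rw [mem_filter, hφ] at hp
        exact ⟨(hTp p hp.1).1, hp.2⟩)
      rw [hlE] at this
      refine this.trans (le_of_eq ?_)
      push_cast
      ring
    have b2 : Real.log 2 / 4 ≤ Real.log (6 / 5) := by
      have : Real.log 2 ≤ Real.log ((6 / 5) ^ 4) := Real.log_le_log (by norm_num) (by norm_num)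
      rw [Real.log_pow] at this
      push_cast at this
      linarith
    have b3 : Real.exp 1 ≤ 3 := by
      have := Real.exp_one_lt_d9
      linarith
    calc ∏ p ∈ T.filter φ, (1 + 1 / ((p : ℝ) - 1))
        ≤ Real.exp (∑ p ∈ T.filter φ, 1 / ((p : ℝ) - 1)) :=
          prod_exp _ (fun p hp => (hTp p (mem_filter.1 hp).1).1)
      _ ≤ Real.exp (1 + n * Real.log (6 / 5)) := by
          apply Real.exp_le_exp.2
          have : (n : ℝ) * (Real.log 2 / 4) ≤ n * Real.log (6 / 5) :=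
            mul_le_mul_of_nonneg_left b2 (Nat.cast_nonneg _)
          linarith
      _ = Real.exp 1 * (6 / 5) ^ n := by
          rw [Real.exp_add, Real.exp_nat_mul, Real.exp_log (by norm_num)]
      _ ≤ 3 * (6 / 5) ^ n := mul_le_mul_of_nonneg_right b3 (by positivity)
  -- small orders
  have a2 : ∏ p ∈ T.filter (fun p => ¬ φ p), (1 + 1 / ((p : ℝ) - 1)) ≤
      C1 * (8 * (5 / 4) ^ n) := by
    have hc : (T.filter (fun p => ¬ φ p)).card ≤ 3 * 8 * (2 ^ n) ^ 2 := by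
      apply GS1_.card_bound 8 (2 ^ n) _ (by norm_num)
      intro p hp
      rw [mem_filter, hφ] at hp
      obtain ⟨hpp, hp2, i, hi, e, he1, he2, he3⟩ := hTp p hp.1
      refine ⟨hpp, e, he1, he2, ?_⟩
      have hi4 : i < 4 := by
        by_contra hcon
        exact hp.2 ⟨i, not_lt.1 hcon, hi, e, he1, he2, he3⟩
      refine he3.trans ?_
      obtain ⟨t, ht⟩ : 2 ^ i * e ∣ 8 * e :=
        Nat.mul_dvd_mul_right (pow_dvd_pow 2 (by omega : i ≤ 3)) e
      rw [ht, pow_mul 2 (2 ^ i * e) t]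
      have := Nat.sub_dvd_pow_sub_pow (2 ^ (2 ^ i * e)) 1 t
      rwa [one_pow] at this
    have hn2 : 2 ≤ 3 * 8 * (2 ^ n) ^ 2 := by
      have : 0 < (2 ^ n) ^ 2 := by positivity
      omega
    have h2 := hM 2 (3 * 8 * (2 ^ n) ^ 2) _ le_rfl hn2 hc (fun p hp => by
      rw [mem_filter] at hp
      exact ⟨(hTp p hp.1).1, (hTp p hp.1).2.1⟩)
    refine h2.trans ?_
    have e1 : Real.log ((3 * 8 * (2 ^ n) ^ 2 : ℕ) : ℝ) = Real.log 24 + 2 * (n * Real.log 2) := by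
      push_cast
      rw [Real.log_mul (by norm_num) (by positivity), Real.log_pow, Real.log_pow]
      norm_num
    have e2 : Real.log 24 ≤ 5 * Real.log 2 := by
      have : Real.log 24 ≤ Real.log (2 ^ 5) := Real.log_le_log (by norm_num) (by norm_num)
      rw [Real.log_pow] at this
      exact_mod_cast this
    have e3 : ∀ m : ℕ, 5 + 2 * (m : ℝ) ≤ 8 * (5 / 4) ^ m := by
      intro m
      induction m with
      | zero => norm_num
      | succ m ih =>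
        have : (1 : ℝ) ≤ (5 / 4) ^ m := one_le_pow₀ (by norm_num)
        rw [pow_succ]
        push_cast
        linarith
    rw [e1]
    push_cast
    rw [div_le_iff₀ hl2, mul_assoc C1]
    apply mul_le_mul_of_nonneg_left _ hC1.le
    calc Real.log 24 + 2 * (n * Real.log 2) ≤ (5 + 2 * n) * Real.log 2 := by linarith
      _ ≤ 8 * (5 / 4) ^ n * Real.log 2 := mul_le_mul_of_nonneg_right (e3 n) hl2.le
  rw [← prod_filter_mul_prod_filter_not T φ]
  have hnn : ∀ p ∈ T, (0 : ℝ) ≤ 1 + 1 / ((p : ℝ) - 1) := by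
    intro p hp
    have h1 : (2 : ℝ) < p := by exact_mod_cast (hTp p hp).2.1
    have : (0 : ℝ) < (p : ℝ) - 1 := by linarith
    positivity
  calc _ ≤ 3 * (6 / 5) ^ n * (C1 * (8 * (5 / 4) ^ n)) :=
        mul_le_mul a1 a2 (prod_nonneg fun p hp => hnn p (mem_filter.1 hp).1) (by positivity)
    _ = 24 * C1 * (6 / 5 * (5 / 4)) ^ n := by rw [mul_pow]; ring
    _ = _ := by norm_num

theorem geo3 (m : ℕ) : ∑ j ∈ range m, (3 / 4 : ℝ) ^ j ≤ 4 := by
  have : ∑ j ∈ range m, (3 / 4 : ℝ) ^ j = 4 - 4 * (3 / 4) ^ m := by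
    induction m with
    | zero => simp
    | succ n ih =>
      rw [sum_range_succ, ih, pow_succ]
      ring
  rw [this]
  have : (0 : ℝ) < 4 * (3 / 4) ^ m := by positivity
  linarith

/-- The Romanoff series of `2 ^ (2 ^ J)` is bounded. -/
theorem romJ (h1 : T_MER) : ∃ g : ℝ, 0 < g ∧ ∀ J : ℕ, BG (2 ^ J) g := by
  obtain ⟨C, hC, hP⟩ := prodJ h1
  refine ⟨6 * C, by positivity, ?_⟩
  intro J S hS
  obtain ⟨L, hL⟩ : ∃ L, L = 2 ^ J := ⟨_, rfl⟩
  have hPL : ∀ (n : ℕ) (S : Finset ℕ), (∀ p ∈ S, p.Prime ∧ 2 < p) →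
      ∏ p ∈ Sj S L (2 ^ n), (1 + 1 / ((p : ℝ) - 1)) ≤ C * (3 / 2) ^ n := by
    intro n S hS
    rw [hL]
    exact hP J n S hS
  rw [← hL] at hS ⊢
  have hSp : ∀ p ∈ S, p.Prime := fun p hp => (hS p hp).1
  have hS2 : ∀ p ∈ S, p.Prime ∧ 2 < p := by
    intro p hp
    have a1 := (GS1_.five_ne L p (hS p hp).2).1
    have a2 := (hS p hp).1.two_le
    exact ⟨hSp p hp, by omega⟩
  obtain ⟨P, hPd⟩ : ∃ P, P = ∏ p ∈ S, p := ⟨_, rfl⟩
  have hP0 : P ≠ 0 := by
    rw [hPd]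
    exact prod_ne_zero_iff.2 (fun p hp => (hSp p hp).ne_zero)
  have hod : ∀ d ∈ P.divisors, 1 ≤ od L d := by
    intro d hd
    apply GS1_.od_pos L d (Nat.pos_of_mem_divisors hd)
    rw [Nat.coprime_comm, Nat.Prime.coprime_iff_not_dvd Nat.prime_two]
    intro h2
    have h3 := h2.trans (Nat.dvd_of_mem_divisors hd)
    rw [hPd] at h3
    obtain ⟨q, hq1, hq2⟩ := (Prime.dvd_finsetProd_iff Nat.prime_two.prime _).1 h3
    have := (Nat.prime_dvd_prime_iff_eq Nat.prime_two (hSp q hq1)).1 hq2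
    have := (hS2 q hq1).2
    omega
  obtain ⟨M, hM⟩ : ∃ M : ℕ, ∀ d ∈ P.divisors, od L d ≤ M :=
    ⟨P.divisors.sup (od L), fun d hd => Finset.le_sup (f := od L) hd⟩
  -- the sums over the small orders
  have hB : ∀ j : ℕ, ∑ d ∈ P.divisors.filter (fun d => 1 ≤ od L d ∧ od L d ≤ 2 ^ (j + 1)),
      (1 : ℝ) / Nat.totient d ≤ C * (3 / 2) ^ (j + 1) := by
    intro j
    have hSj : ∀ p ∈ Sj S L (2 ^ (j + 1)), p.Prime := fun p hp => hSp p (mem_filter.1 hp).1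
    have h2 := hPL (j + 1) S hS2
    rw [← sum_phi (Sj S L (2 ^ (j + 1))) hSj] at h2
    refine le_trans (sum_le_sum_of_subset_of_nonneg (fun d hd => ?_)
      (fun d _ _ => by positivity)) h2
    obtain ⟨hd1, hd2, hd3⟩ := mem_filter.1 hd
    refine Nat.mem_divisors.2 ⟨dvd_prod_Sj hSp ?_ hd2 hd3, ?_⟩
    · rw [← hPd]
      exact Nat.dvd_of_mem_divisors hd1
    · exact prod_ne_zero_iff.2 (fun p hp => (hSj p hp).ne_zero)
  -- dyadic decomposition
  have key : GS L S ≤ ∑ j ∈ range (M + 1), 1 / (2 : ℝ) ^ j *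
      ∑ d ∈ P.divisors.filter (fun d => 1 ≤ od L d ∧ od L d ≤ 2 ^ (j + 1)),
        (1 : ℝ) / Nat.totient d := by
    have e0 : GS L S ≤ ∑ d ∈ P.divisors, (1 : ℝ) / (Nat.totient d * od L d) := by
      unfold GS
      rw [← hPd]
      exact sum_le_sum_of_subset_of_nonneg (erase_subset _ _) (fun d _ _ => by positivity)
    refine e0.trans ?_
    have e1 : ∀ j ∈ range (M + 1), 1 / (2 : ℝ) ^ j *
        ∑ d ∈ P.divisors.filter (fun d => 1 ≤ od L d ∧ od L d ≤ 2 ^ (j + 1)),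
          (1 : ℝ) / Nat.totient d =
        ∑ d ∈ P.divisors, if (1 ≤ od L d ∧ od L d ≤ 2 ^ (j + 1)) then
          1 / (2 : ℝ) ^ j * (1 / Nat.totient d) else 0 := by
      intro j _
      rw [mul_sum, sum_filter]
    rw [sum_congr rfl e1, sum_comm]
    refine sum_le_sum (fun d hd => ?_)
    have hnn : ∀ j ∈ range (M + 1), (0 : ℝ) ≤ if (1 ≤ od L d ∧ od L d ≤ 2 ^ (j + 1)) then
        1 / (2 : ℝ) ^ j * (1 / Nat.totient d) else 0 := by
      intro j _
      split_ifs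
      · positivity
      · exact le_rfl
    have h1 := hod d hd
    obtain ⟨j, hj⟩ : ∃ j, j = Nat.log 2 (od L d) := ⟨_, rfl⟩
    have hj1 : 2 ^ j ≤ od L d := by
      rw [hj]
      exact Nat.pow_log_le_self 2 (by omega)
    have hj2 : od L d < 2 ^ (j + 1) := by
      rw [hj]
      exact Nat.lt_pow_succ_log_self (by norm_num) _
    have hjM : j ∈ range (M + 1) := by
      rw [mem_range]
      have a1 : j < 2 ^ j := Nat.lt_two_pow_self
      have a2 := hM d hd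
      omega
    refine le_trans ?_ (single_le_sum hnn hjM)
    rw [if_pos ⟨h1, hj2.le⟩]
    have h3 : (2 : ℝ) ^ j ≤ od L d := by exact_mod_cast hj1
    have h5 : (1 : ℝ) / (od L d) ≤ 1 / 2 ^ j := one_div_le_one_div_of_le (by positivity) h3
    have h6 : (0 : ℝ) ≤ 1 / Nat.totient d := by positivity
    calc (1 : ℝ) / (Nat.totient d * od L d) = 1 / Nat.totient d * (1 / od L d) := by
          rw [one_div_mul_one_div]
      _ ≤ 1 / Nat.totient d * (1 / 2 ^ j) := mul_le_mul_of_nonneg_left h5 h6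
      _ = _ := mul_comm _ _
  refine key.trans ?_
  calc _ ≤ ∑ j ∈ range (M + 1), 1 / (2 : ℝ) ^ j * (C * (3 / 2) ^ (j + 1)) :=
        sum_le_sum (fun j _ => mul_le_mul_of_nonneg_left (hB j) (by positivity))
    _ = C * (3 / 2) * ∑ j ∈ range (M + 1), (3 / 4 : ℝ) ^ j := by
        rw [mul_sum]
        refine sum_congr rfl (fun j _ => ?_)
        rw [show (3 / 4 : ℝ) = 3 / 2 / 2 by norm_num, div_pow (3 / 2 : ℝ) 2 j, pow_succ]
        ring
    _ ≤ C * (3 / 2) * 4 := mul_le_mul_of_nonneg_left (geo3 _) (by positivity)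
    _ = 6 * C := by ring

end Pool.Agent.SPT
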