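import Pool.Agent.SPA.P_POS

/-!
SPT (MP_315051_nt): many `k ≡ 1 (mod 2 (2 ^ L - 1))` are not covered by the primes of
`2 ^ (L T) - 1`.
-/

set_option autoImplicit false

open Finset
open Pool.Agent.TSP (Per rho)
open Pool.Agent.Tri5 (T_MER T_EXP)

namespace Pool.Agent.SPT

open Pool.Agent.SPA

theorem large_T (C : ℝ) (L : ℕ) : ∃ T0 : ℕ, 1 ≤ T0 ∧ ∀ T : ℕ, T0 ≤ T →
    C * Real.log ((2 * (L * T) : ℕ) : ℝ) ≤ T * Real.log 2 := by
  have hl2 : 0 < Real.log 2 := Real.log_pos (by norm_num)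
  obtain ⟨N, hN⟩ := exists_nat_ge (8 * L * C ^ 2 / Real.log 2 ^ 2)
  refine ⟨N + 1, by omega, fun T hT => ?_⟩
  have hT1 : (N : ℝ) ≤ T := by exact_mod_cast (by omega : N ≤ T)
  have hT0 : (1 : ℝ) ≤ T := by exact_mod_cast (by omega : 1 ≤ T)
  rcases le_or_gt C 0 with hC | hC
  · have h1 : 0 ≤ Real.log ((2 * (L * T) : ℕ) : ℝ) := Real.log_natCast_nonneg _
    have h2 : 0 ≤ (T : ℝ) * Real.log 2 := by positivity
    nlinarith
  obtain ⟨u, hu⟩ : ∃ u : ℝ, u = 2 * (L * T) := ⟨_, rfl⟩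
  have hu' : ((2 * (L * T) : ℕ) : ℝ) = u := by rw [hu]; push_cast; ring
  have hu0 : 0 ≤ u := by rw [hu]; positivity
  rw [hu']
  have h1 : Real.log u ≤ 2 * Real.sqrt u := by
    rcases eq_or_lt_of_le hu0 with h | h
    · rw [← h]; simp
    · have h2 : Real.log (Real.sqrt u) ≤ Real.sqrt u - 1 :=
        Real.log_le_sub_one_of_pos (Real.sqrt_pos.2 h)
      rw [Real.log_sqrt hu0] at h2
      linarith
  have h3 : 8 * (L : ℝ) * C ^ 2 ≤ T * Real.log 2 ^ 2 := by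
    have := hN.trans hT1
    rwa [div_le_iff₀ (by positivity)] at this
  have h4 : (2 * C * Real.sqrt u) ^ 2 ≤ (T * Real.log 2) ^ 2 := by
    rw [mul_pow, Real.sq_sqrt hu0, hu]
    calc (2 * C) ^ 2 * (2 * (L * T)) = (8 * L * C ^ 2) * T := by ring
      _ ≤ (T * Real.log 2 ^ 2) * T := mul_le_mul_of_nonneg_right h3 (by linarith)
      _ = _ := by ring
  have h5 : 2 * C * Real.sqrt u ≤ T * Real.log 2 :=
    (pow_le_pow_iff_left₀ (by positivity) (by positivity) two_ne_zero).1 h4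
  calc C * Real.log u ≤ C * (2 * Real.sqrt u) := mul_le_mul_of_nonneg_left h1 hC.le
    _ = 2 * C * Real.sqrt u := by ring
    _ ≤ _ := h5

open Pool.Agent.SPA.POS_ in
open Classical in
theorem sm (hMER : T_MER) (h2 : T_SH) (h3 : T_RH2) (h4 : T_PR2) (L : ℕ) (hL : 1 ≤ L) (g : ℝ)
    (hg : 0 < g) (hBG : BG L g) : ∃ T0 : ℕ, 1 ≤ T0 ∧ ∀ T : ℕ, T0 ≤ T → ∀ Y : ℕ,
    (Y : ℝ) / (2 + g) - MM (L * T) ≤
      ((((Ioc 0 Y).filter fun j => Opn (L * T) (1 + MM L * j)).card : ℕ) : ℝ) := by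
  classical
  obtain ⟨C1, hC1, hM⟩ := hMER
  obtain ⟨T0, hT0, hlarge⟩ := large_T C1 L
  refine ⟨T0, hT0, fun T hT Y => ?_⟩
  have hT1 : 1 ≤ T := hT0.trans hT
  have hLT : 1 ≤ L * T := Nat.mul_pos hL hT1
  obtain ⟨m, hm⟩ : ∃ m : ℕ, m = 2 ^ (L * T) - 1 := ⟨_, rfl⟩
  have hm2 : ¬ 2 ∣ m := hm ▸ odd_m (L * T) hLT
  have hm1 : 1 ≤ m := by
    rcases Nat.eq_zero_or_pos m with h | h
    · exact absurd (h ▸ dvd_zero 2) hm2
    · exact h
  obtain ⟨S, hS⟩ : ∃ S : Finset ℕ, S = m.primeFactors.filter (fun p => ¬ p ∣ 2 * (2 ^ L - 1)) :=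
    ⟨_, rfl⟩
  have hSmem : ∀ p, p ∈ S ↔ p ∈ m.primeFactors ∧ ¬ p ∣ 2 * (2 ^ L - 1) := fun p => by
    rw [hS, mem_filter]
  have hSp : ∀ p ∈ S, p.Prime := fun p hp =>
    Nat.prime_of_mem_primeFactors ((hSmem p).1 hp).1
  have hSd : ∀ p ∈ S, p ∣ m := fun p hp =>
    Nat.dvd_of_mem_primeFactors ((hSmem p).1 hp).1
  have hS2 : ∀ p ∈ S, p ≠ 2 := by
    rintro p hp rfl
    exact hm2 (hSd 2 hp)
  have hS3 : ∀ p ∈ S, 3 ≤ p := fun p hp => by
    have a1 := (hSp p hp).two_le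
    have a2 := hS2 p hp
    omega
  have hSM : ∀ p ∈ S, ¬ p ∣ 2 * MM L := fun p hp h => by
    unfold MM at h
    rcases (Nat.Prime.dvd_mul (hSp p hp)).1 h with h5 | h5
    · have a1 := Nat.le_of_dvd (by norm_num) h5
      have a2 := hS3 p hp
      omega
    · exact ((hSmem p).1 hp).2 h5
  obtain ⟨Q, hQ⟩ : ∃ Q : ℕ, Q = ∏ p ∈ S, p := ⟨_, rfl⟩
  obtain ⟨V, hV⟩ : ∃ V : ℝ, V = ∏ p ∈ S, (1 - 1 / (p : ℝ)) := ⟨_, rfl⟩
  have hQm : Q ∣ m := by
    rw [hQ]
    exact Finset.prod_primes_dvd _ (fun p hp => (hSp p hp).prime) hSd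
  have hQ1 : 1 ≤ Q := by
    rw [hQ]
    exact Finset.prod_pos fun p hp => (hSp p hp).pos
  have hQ0 : (0 : ℝ) < Q := by exact_mod_cast hQ1
  have hQr : (Q : ℝ) = ∏ p ∈ S, (p : ℝ) := by
    rw [hQ]
    push_cast
    rfl
  have hQle : Q ≤ m := Nat.le_of_dvd hm1 hQm
  -- the size of V
  have hcard : S.card ≤ L * T := by
    have a1 : 2 ^ S.card ≤ Q := by
      rw [hQ]
      exact Finset.pow_card_le_prod S (fun p : ℕ => p) 2 (fun p hp => (hSp p hp).two_le)
    have a3 : 2 ^ S.card ≤ 2 ^ (L * T) := by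
      have : m ≤ 2 ^ (L * T) := by rw [hm]; exact Nat.sub_le _ _
      exact a1.trans (hQle.trans this)
    exact (Nat.pow_le_pow_iff_right (by norm_num)).1 a3
  have hV0 : 0 < V := by
    rw [hV]
    refine prod_pos fun p hp => ?_
    have : (3 : ℝ) ≤ p := by exact_mod_cast hS3 p hp
    have : 1 / (p : ℝ) ≤ 1 / 3 := one_div_le_one_div_of_le (by norm_num) this
    linarith
  have hl2 : 0 < Real.log 2 := Real.log_pos (by norm_num)
  have hT0r : (0 : ℝ) < T := by exact_mod_cast hT1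
  have hTV : 1 ≤ T * V := by
    have a1 := hM 2 (2 * (L * T)) S le_rfl (by omega) (by omega)
      (fun p hp => ⟨hSp p hp, by have := hS3 p hp; omega⟩)
    have a2 : V * ∏ p ∈ S, (1 + 1 / ((p : ℝ) - 1)) = 1 := by
      rw [hV, ← prod_mul_distrib]
      refine prod_eq_one fun p hp => ?_
      have : (3 : ℝ) ≤ p := by exact_mod_cast hS3 p hp
      have b1 : (p : ℝ) ≠ 0 := by linarith
      have b2 : (p : ℝ) - 1 ≠ 0 := by linarith
      field_simp
      ring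
    have a3 : ∏ p ∈ S, (1 + 1 / ((p : ℝ) - 1)) ≤ T := by
      refine a1.trans ?_
      have e2 : Real.log ((2 : ℕ) : ℝ) = Real.log 2 := by norm_num
      rw [e2, div_le_iff₀ hl2]
      exact hlarge T hT
    calc (1 : ℝ) = V * ∏ p ∈ S, (1 + 1 / ((p : ℝ) - 1)) := a2.symm
      _ ≤ V * T := mul_le_mul_of_nonneg_left a3 hV0.le
      _ = T * V := mul_comm _ _
  -- the indicators
  obtain ⟨G, hG⟩ : ∃ G : ℕ → ℕ → ℝ, G = fun t j =>
      if ∀ p ∈ S, ¬ p ∣ (1 + MM L * j) * 2 ^ (L * (t + 1)) + 1 then 1 else 0 := ⟨_, rfl⟩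
  obtain ⟨C, hC⟩ : ∃ C : ℕ → ℕ → ℝ, C = fun u t => ∑ j ∈ range Q, G u j * G t j := ⟨_, rfl⟩
  have hCv : ∀ u t, u ≤ t → C u t = Q * ∏ p ∈ S,
      (1 - ((if p ∣ 2 ^ (L * (t - u)) - 1 then 1 else 2 : ℕ) : ℝ) / p) := by
    intro u t hut
    have r1 := h3 1 (MM L) (L * (u + 1)) (L * (t - u))
    have r2 := cnt_good _ r1.1 S hSp (Classical.decPred _)
    have r3 : ∏ p ∈ S, (1 - ((if p ∣ 2 ^ (L * (t - u)) - 1 then 1 else 2 : ℕ) : ℝ) / p) =
        ∏ p ∈ S, (1 - (rho (fun p j => p ∣ (1 + MM L * j) * 2 ^ (L * (u + 1)) + 1 ∨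
          p ∣ (1 + MM L * j) * 2 ^ (L * (u + 1) + L * (t - u)) + 1) p : ℝ) / p) := by
      refine prod_congr rfl fun p hp => ?_
      rw [r1.2 p (hSp p hp) (hSM p hp)]
    rw [r3, hQr, ← r2, ← hQ, hC]
    simp only
    rw [card_filter]
    push_cast
    refine sum_congr rfl fun k _ => ?_
    have e1 : L * (u + 1) + L * (t - u) = L * (t + 1) := by
      rw [← mul_add]
      congr 1
      omega
    rw [hG]
    simp only [e1]
    by_cases a : ∀ p ∈ S, ¬ p ∣ (1 + MM L * k) * 2 ^ (L * (u + 1)) + 1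
    · by_cases b : ∀ p ∈ S, ¬ p ∣ (1 + MM L * k) * 2 ^ (L * (t + 1)) + 1
      · rw [if_pos a, if_pos b, if_pos (fun p hp h => h.elim (a p hp) (b p hp))]
        norm_num
      · rw [if_pos a, if_neg b, if_neg (fun h => b fun p hp hd => h p hp (Or.inr hd))]
        norm_num
    · have a' : ¬ ∀ p ∈ S, ¬ (p ∣ (1 + MM L * k) * 2 ^ (L * (u + 1)) + 1 ∨
          p ∣ (1 + MM L * k) * 2 ^ (L * (t + 1)) + 1) :=
        fun h => a fun p hp hd => h p hp (Or.inl hd)
      rw [if_neg a, if_neg a']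
      norm_num
  have hCd : ∀ t, C t t = Q * V := by
    intro t
    rw [hCv t t le_rfl, hV]
    simp
  have hGG : ∀ t k, G t k * G t k = G t k := by
    intro t k
    rw [hG]
    simp only
    split_ifs <;> norm_num
  obtain ⟨F, hF⟩ : ∃ F : ℕ → ℝ, F = fun h =>
      ∏ p ∈ S.filter (fun p => p ∣ 2 ^ (L * h) - 1), (1 + 1 / ((p : ℝ) - 1)) := ⟨_, rfl⟩
  have hCl : ∀ u t, u < t → C u t ≤ Q * V ^ 2 * F (t - u) := by
    intro u t hut
    rw [hCv u t hut.le, mul_assoc]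
    apply mul_le_mul_of_nonneg_left _ hQ0.le
    rw [hV, hF]
    exact h4 S (2 ^ (L * (t - u)) - 1) (fun p hp => ⟨hSp p hp, hS3 p hp⟩)
  have hFs : ∀ t, ∑ h ∈ Icc 1 t, F h ≤ t * (1 + g) := by
    intro t
    have r := h2 L g hL hBG S (fun p hp => ⟨hSp p hp, ((hSmem p).1 hp).2⟩) t
    rw [hF]
    exact r
  -- the counting function
  obtain ⟨R, hR⟩ : ∃ R : ℕ → ℝ, R = fun k => ∑ t ∈ range T, G t k := ⟨_, rfl⟩
  have hR1 : ∑ k ∈ range Q, R k = T * (Q * V) := by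
    rw [hR]
    simp only
    rw [sum_comm]
    have : ∀ t ∈ range T, ∑ k ∈ range Q, G t k = Q * V := by
      intro t _
      rw [← hCd t, hC]
      simp only [hGG]
    rw [sum_congr rfl this, sum_const, card_range, nsmul_eq_mul]
  have hR2 : ∑ k ∈ range Q, R k ^ 2 ≤ T * (Q * V) + Q * V ^ 2 * ((1 + g) * T ^ 2) := by
    have e1 : ∑ k ∈ range Q, R k ^ 2 = ∑ t ∈ range T, ∑ u ∈ range T, C t u := by
      rw [hR, hC]
      simp only [sq, sum_mul_sum]
      rw [sum_comm]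
      exact sum_congr rfl fun t _ => sum_comm
    rw [e1, sym_sum C (by
      intro s t
      rw [hC]
      exact sum_congr rfl fun k _ => mul_comm _ _) T]
    have e2 : ∑ t ∈ range T, C t t = T * (Q * V) := by
      rw [sum_congr rfl fun t _ => hCd t, sum_const, card_range, nsmul_eq_mul]
    have e3 : ∑ t ∈ range T, ∑ u ∈ range t, C u t ≤
        ∑ t ∈ range T, Q * V ^ 2 * ((1 + g) * t) := by
      refine sum_le_sum fun t _ => ?_
      calc ∑ u ∈ range t, C u t ≤ ∑ u ∈ range t, Q * V ^ 2 * F (t - u) :=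
            sum_le_sum fun u hu => hCl u t (mem_range.1 hu)
        _ = Q * V ^ 2 * ∑ h ∈ Icc 1 t, F h := by rw [← mul_sum, reindex]
        _ ≤ Q * V ^ 2 * ((1 + g) * t) := by
            apply mul_le_mul_of_nonneg_left _ (by positivity)
            have := hFs t
            linarith
    have e4 : 2 * ∑ t ∈ range T, Q * V ^ 2 * ((1 + g) * (t : ℝ)) ≤
        Q * V ^ 2 * ((1 + g) * T ^ 2) := by
      rw [← mul_sum, ← mul_sum]
      have := sum_id T
      have h0 : 0 ≤ Q * V ^ 2 * (1 + g) := by positivity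
      have := mul_le_mul_of_nonneg_left this h0
      linarith
    rw [e2]
    linarith
  -- Cauchy and Schwarz
  obtain ⟨A, hA⟩ : ∃ A : Finset ℕ, A = (range Q).filter fun k => R k ≠ 0 := ⟨_, rfl⟩
  have hCS : (T * (Q * V)) ^ 2 ≤ A.card * (T * (Q * V) + Q * V ^ 2 * ((1 + g) * T ^ 2)) := by
    have e1 : ∑ k ∈ A, R k = T * (Q * V) := by
      rw [← hR1, hA, sum_filter_ne_zero]
    have e2 : ∑ k ∈ A, R k ^ 2 ≤ ∑ k ∈ range Q, R k ^ 2 := by
      apply sum_le_sum_of_subset_of_nonneg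
      · rw [hA]
        exact filter_subset _ _
      · intro k _ _
        positivity
    have e3 := sq_sum_le_card_mul_sum_sq (s := A) (f := R)
    rw [e1] at e3
    exact e3.trans (mul_le_mul_of_nonneg_left (e2.trans hR2) (Nat.cast_nonneg _))
  have hAQ : (Q : ℝ) ≤ A.card * (2 + g) := by
    obtain ⟨x, hx⟩ : ∃ x : ℝ, x = T * V := ⟨_, rfl⟩
    rw [← hx] at hTV
    have e1 : (T * (Q * V)) ^ 2 = (Q * x) * (Q * x) := by rw [hx]; ring
    have e2 : A.card * (T * (Q * V) + Q * V ^ 2 * ((1 + g) * T ^ 2)) =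
        (A.card * (1 + (1 + g) * x)) * (Q * x) := by rw [hx]; ring
    rw [e1, e2] at hCS
    have e3 : 0 < Q * x := by positivity
    have e4 : Q * x ≤ A.card * (1 + (1 + g) * x) := le_of_mul_le_mul_right hCS e3
    have e5 : A.card * (1 + (1 + g) * x) ≤ A.card * ((2 + g) * x) := by
      apply mul_le_mul_of_nonneg_left _ (Nat.cast_nonneg _)
      linarith
    have e6 : Q * x ≤ (A.card * (2 + g)) * x := by linarith
    exact le_of_mul_le_mul_right e6 (by linarith)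
  -- from R to Opn
  have hOpn : ∀ j, R j ≠ 0 → Opn (L * T) (1 + MM L * j) := by
    intro j h0
    rw [hR] at h0
    simp only at h0
    obtain ⟨t, ht, h1'⟩ := exists_ne_zero_of_sum_ne_zero h0
    rw [hG] at h1'
    simp only at h1'
    rw [mem_range] at ht
    refine ⟨L * (t + 1), Nat.mul_pos hL (by omega), Nat.mul_le_mul_left _ (by omega), ?_⟩
    have hgood : ∀ p ∈ S, ¬ p ∣ (1 + MM L * j) * 2 ^ (L * (t + 1)) + 1 := by
      by_contra hc
      rw [if_neg hc] at h1'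
      exact h1' rfl
    by_contra hc
    obtain ⟨p, hp, hd, hd2⟩ := Nat.Prime.not_coprime_iff_dvd.1 hc
    rw [← hm] at hd2
    by_cases hpS : p ∈ S
    · exact hgood p hpS hd
    · have hpm : p ∈ m.primeFactors := Nat.mem_primeFactors.2 ⟨hp, hd2, by omega⟩
      have hpL : p ∣ 2 * (2 ^ L - 1) := by
        by_contra hn
        exact hpS ((hSmem p).2 ⟨hpm, hn⟩)
      have hp2 : p ≠ 2 := by
        rintro rfl
        exact hm2 hd2
      have hpL' : p ∣ 2 ^ L - 1 := by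
        rcases (Nat.Prime.dvd_mul hp).1 hpL with h | h
        · exact absurd ((Nat.prime_dvd_prime_iff_eq hp Nat.prime_two).1 h) hp2
        · exact h
      have hpW : p ∣ 2 ^ (L * (t + 1)) - 1 := by
        refine hpL'.trans ?_
        rw [pow_mul]
        have := Nat.sub_dvd_pow_sub_pow (2 ^ L) 1 (t + 1)
        rwa [one_pow] at this
      have h1 : 1 ≤ 2 ^ (L * (t + 1)) := Nat.one_le_two_pow
      obtain ⟨w, hw⟩ : ∃ w, 2 ^ (L * (t + 1)) = w + 1 := ⟨2 ^ (L * (t + 1)) - 1, by omega⟩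
      rw [hw, Nat.add_sub_cancel] at hpW
      rw [hw] at hd
      have e1 : (1 + MM L * j) * (w + 1) + 1 = (w + MM L * j * (w + 1)) + 2 := by ring
      rw [e1] at hd
      have hpM : p ∣ MM L := hpL
      have h5 : p ∣ 2 := (Nat.dvd_add_right (dvd_add hpW ((hpM.mul_right _).mul_right _))).1 hd
      exact hp2 ((Nat.prime_dvd_prime_iff_eq hp Nat.prime_two).1 h5)
  have hper : ∀ j, R (Q + j) ≠ 0 ↔ R j ≠ 0 := by
    intro j
    have : R (Q + j) = R j := by
      rw [hR]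
      simp only
      refine sum_congr rfl fun t _ => ?_
      rw [hG]
      simp only
      have e : (∀ p ∈ S, ¬ p ∣ (1 + MM L * (Q + j)) * 2 ^ (L * (t + 1)) + 1) ↔
          ∀ p ∈ S, ¬ p ∣ (1 + MM L * j) * 2 ^ (L * (t + 1)) + 1 := by
        refine forall_congr' fun p => imp_congr_right fun hp => not_congr ?_
        have e1 : (1 + MM L * (Q + j)) * 2 ^ (L * (t + 1)) + 1 =
            MM L * Q * 2 ^ (L * (t + 1)) + ((1 + MM L * j) * 2 ^ (L * (t + 1)) + 1) := by ring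
        rw [e1]
        have hpQ : p ∣ Q := by
          rw [hQ]
          exact dvd_prod_of_mem _ hp
        exact Nat.dvd_add_right ((hpQ.mul_left _).mul_right _)
      simp only [e]
    rw [this]
  have hcm := card_mul (fun j => R j ≠ 0) Q (Y / Q) hper
  rw [← hA] at hcm
  have hsub : (range (Q * (Y / Q))).filter (fun j => R j ≠ 0) ⊆
      insert 0 ((Ioc 0 Y).filter fun j => Opn (L * T) (1 + MM L * j)) := by
    intro j hj
    rw [mem_filter, mem_range] at hj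
    rw [mem_insert, mem_filter, mem_Ioc]
    rcases Nat.eq_zero_or_pos j with h | h
    · exact Or.inl h
    · have := Nat.mul_div_le Y Q
      exact Or.inr ⟨⟨h, by omega⟩, hOpn j hj.2⟩
  have hle := (card_le_card hsub).trans (card_insert_le _ _)
  rw [hcm] at hle
  have hle' : ((Y / Q : ℕ) : ℝ) * A.card ≤
      ((((Ioc 0 Y).filter fun j => Opn (L * T) (1 + MM L * j)).card : ℕ) : ℝ) + 1 := by
    exact_mod_cast hle
  have hfl : (Y : ℝ) < Q * (((Y / Q : ℕ) : ℝ) + 1) := by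
    have h := Nat.lt_mul_div_succ Y hQ1
    exact_mod_cast h
  have hAle : (A.card : ℝ) ≤ Q := by
    have : A.card ≤ Q := by
      rw [hA]
      refine (card_filter_le _ _).trans ?_
      rw [card_range]
    exact_mod_cast this
  have hMMr : (Q : ℝ) + 1 ≤ MM (L * T) := by
    have : Q + 1 ≤ MM (L * T) := by
      unfold MM
      rw [← hm]
      omega
    exact_mod_cast this
  have h2g : 0 < 2 + g := by linarith
  have f1 : (Y : ℝ) / (2 + g) ≤ (((Y / Q : ℕ) : ℝ) + 1) * A.card := by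
    rw [div_le_iff₀ h2g]
    calc (Y : ℝ) ≤ (((Y / Q : ℕ) : ℝ) + 1) * Q := by linarith
      _ ≤ (((Y / Q : ℕ) : ℝ) + 1) * (A.card * (2 + g)) :=
          mul_le_mul_of_nonneg_left hAQ (by positivity)
      _ = _ := by ring
  linarith

end Pool.Agent.SPT
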