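import Pool.Agent.SPT.Tot
import Pool.Agent.SPT.Sm
import Pool.Agent.SPT.Rom
import Pool.Agent.SPA.Fin2

/-!
SPT (MP_315051_nt): primes `k * 2 ^ n + 1` with `n ≤ A log x` do not reach the sieve density.
-/

set_option autoImplicit false

open Finset
open Pool.Agent.Tri5 (T_MER)

namespace Pool.Agent.SPT

open Pool.Agent.SPA

theorem opn_dvd (h2 : T_OPC) {L L' k : ℕ} (hL : 1 ≤ L) (hd : L ∣ L') (h : Opn L' k) :
    Opn L k := by
  apply opn_of_not h2 hL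
  refine not_of_opn (L := L') ?_ h
  intro p hp
  refine ⟨Nat.prime_of_mem_primeFactors hp, ?_⟩
  obtain ⟨t, rfl⟩ := hd
  have h1 : 2 ^ L - 1 ∣ 2 ^ (L * t) - 1 := by
    rw [pow_mul]
    have := Nat.sub_dvd_pow_sub_pow (2 ^ L) 1 t
    rwa [one_pow] at this
  exact ((Nat.dvd_of_mem_primeFactors hp).trans h1).mul_left 2

/-- A number `k` with a prime `k * 2 ^ n + 1` is open or small. -/
theorem small_of (h2 : T_OPC) {A : ℝ} {L x k : ℕ} (hL : 1 ≤ L) (h : PrimeLog A x k)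
    (hn : ¬ Opn L k) : k < 2 ^ L := by
  obtain ⟨n, hn1, _, hp⟩ := h
  obtain ⟨p, hpp, hd, hk⟩ := h2 L k hL hn n hn1
  have h3 := (Nat.prime_dvd_prime_iff_eq hpp hp).1 hk
  have h1 : 2 ^ 1 ≤ 2 ^ L := Nat.pow_le_pow_right (by norm_num) hL
  have h4 : p ≤ 2 ^ L - 1 := Nat.le_of_dvd (by omega) hd
  have h5 : k ≤ k * 2 ^ n := Nat.le_mul_of_pos_right _ (by positivity)
  omega

open Classical in
/-- The main estimate for a given `J`. -/
theorem core (hMER : T_MER) (hSH : T_SH)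
    (hRH2 : T_RH2) (hPR2 : T_PR2) (hOPC : T_OPC) (hDEN : T_DEN) (K : ℝ)
    (hK : ∀ K' : ℝ, (∀ L : ℕ, 1 ≤ L → K' ≤ dens L) → K' ≤ K) (g : ℝ) (hg0 : 0 < g)
    (hrom : ∀ J : ℕ, BG (2 ^ J) g) (CD A : ℝ) (J : ℕ)
    (hJ : 4 * (CD * A / ((2 ^ J : ℕ) : ℝ)) * (2 + g) ≤ 1)
    (htot : ∃ x0 : ℕ, ∀ x : ℕ, x0 ≤ x →
    (((Ioc 0 (x / MM (2 ^ J))).filter fun j => PrimeLog A x (1 + MM (2 ^ J) * j)).card : ℝ) ≤
      CD * A / ((2 ^ J : ℕ) : ℝ) * ((x / MM (2 ^ J) : ℕ) : ℝ)) : ∃ x0 : ℕ, ∀ x : ℕ, x0 ≤ x →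
      cnt (fun k => Odd k ∧ PrimeLog A x k) x ≤
        (K - 1 / (8 * MM (2 ^ J) * (2 + g))) * x := by
  classical
  have hBG := hrom J
  obtain ⟨L, hL⟩ : ∃ L, L = 2 ^ J := ⟨_, rfl⟩
  obtain ⟨xt, hxt⟩ := htot
  rw [← hL] at hBG
  rw [← hL] at hJ hxt ⊢
  have hL1 : 1 ≤ L := by rw [hL]; exact Nat.one_le_two_pow
  have hLr : (1 : ℝ) ≤ L := by exact_mod_cast hL1
  obtain ⟨T0, hT01, hsm⟩ := sm hMER hSH hRH2 hPR2 L hL1 g hg0 hBG
  obtain ⟨M, hM⟩ : ∃ M, M = MM L := ⟨_, rfl⟩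
  rw [← hM] at hxt hsm ⊢
  have hM1 : 2 ≤ M := by
    rw [hM]
    unfold MM
    have : 2 ^ 1 ≤ 2 ^ L := Nat.pow_le_pow_right (by norm_num) hL1
    omega
  have hMr : (2 : ℝ) ≤ M := by exact_mod_cast hM1
  obtain ⟨δ, hδ⟩ : ∃ δ : ℝ, δ = 1 / (8 * M * (2 + g)) := ⟨_, rfl⟩
  have hδ0 : 0 < δ := by rw [hδ]; positivity
  rw [← hδ]
  obtain ⟨L1, hL11, hdL1⟩ : ∃ L1 : ℕ, 1 ≤ L1 ∧ dens L1 ≤ K + δ := by
    by_contra hcon
    push Not at hcon
    have := hK (K + δ) (fun L hL => (hcon L hL).le)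
    linarith
  obtain ⟨T, hT⟩ : ∃ T, T = T0 * L1 := ⟨_, rfl⟩
  have hTT0 : T0 ≤ T := by rw [hT]; exact Nat.le_mul_of_pos_right _ hL11
  obtain ⟨L2, hL2⟩ : ∃ L2, L2 = L * T := ⟨_, rfl⟩
  have hL21 : 1 ≤ L2 := by
    rw [hL2, hT]
    exact Nat.mul_pos hL1 (Nat.mul_pos hT01 hL11)
  have hdvd : L1 ∣ L2 := by
    rw [hL2, hT]
    exact ⟨L * T0, by ring⟩
  have hsm2 := hsm T hTT0
  rw [← hL2] at hsm2
  obtain ⟨R, hR⟩ : ∃ R : ℝ, R = MM L1 + 1 + 2 ^ L2 + 1 + MM L2 + 1 := ⟨_, rfl⟩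
  refine ⟨xt + ⌈R / δ⌉₊, fun x hx => ?_⟩
  obtain ⟨Y, hY⟩ : ∃ Y, Y = x / M := ⟨_, rfl⟩
  have hx1 := hxt x (by omega)
  have hx2 := hsm2 Y
  rw [← hY] at hx1
  have hxR : R ≤ δ * x := by
    have h1 : R / δ ≤ x := (Nat.le_ceil _).trans (by exact_mod_cast (by omega : ⌈R / δ⌉₊ ≤ x))
    rw [div_le_iff₀ hδ0] at h1
    linarith
  -- the sets
  obtain ⟨E, hE⟩ : ∃ E : Finset ℕ, E = (range (x + 1)).filter fun k => Odd k ∧ PrimeLog A x k :=
    ⟨_, rfl⟩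
  obtain ⟨S1, hS1⟩ : ∃ S1 : Finset ℕ, S1 = (range (x + 1)).filter fun k => Odd k ∧ Opn L1 k :=
    ⟨_, rfl⟩
  obtain ⟨J1, hJ1⟩ : ∃ J1 : Finset ℕ, J1 = (Ioc 0 Y).filter fun j => Opn L2 (1 + M * j) :=
    ⟨_, rfl⟩
  obtain ⟨J2, hJ2'⟩ : ∃ J2 : Finset ℕ, J2 = (Ioc 0 Y).filter fun j => PrimeLog A x (1 + M * j) :=
    ⟨_, rfl⟩
  obtain ⟨Bs, hBs⟩ : ∃ Bs : Finset ℕ, Bs = (J1 \ J2).image fun j => 1 + M * j := ⟨_, rfl⟩
  have hBcard : Bs.card = (J1 \ J2).card := by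
    rw [hBs]
    apply card_image_of_injective
    intro a b hab
    have h1 : M * a = M * b := by
      have : 1 + M * a = 1 + M * b := hab
      omega
    exact Nat.eq_of_mul_eq_mul_left (by omega) h1
  have hBlow : J1.card ≤ Bs.card + J2.card := by
    rw [hBcard]
    have h1 : J1 ⊆ (J1 \ J2) ∪ J2 := by
      intro j hj
      by_cases h : j ∈ J2
      · exact mem_union_right _ h
      · exact mem_union_left _ (mem_sdiff.2 ⟨hj, h⟩)
    exact (card_le_card h1).trans (card_union_le _ _)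
  have hMeven : ∀ j, Odd (1 + M * j) := by
    intro j
    rw [hM]
    unfold MM
    exact ⟨(2 ^ L - 1) * j, by ring⟩
  have hdisj : Disjoint E Bs := by
    rw [disjoint_left]
    intro k hk hk2
    rw [hBs, mem_image] at hk2
    obtain ⟨j, hj, rfl⟩ := hk2
    rw [mem_sdiff, hJ1, hJ2', mem_filter, mem_filter] at hj
    rw [hE, mem_filter] at hk
    exact hj.2 ⟨hj.1.1, hk.2.2⟩
  have hsub : E ∪ Bs ⊆ S1 ∪ (range (2 ^ L2) ∪ {x + 1}) := by
    intro k hk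
    rw [mem_union] at hk
    rw [mem_union, mem_union, mem_range, mem_singleton]
    rcases hk with hk | hk
    · rw [hE, mem_filter] at hk
      by_cases hop : Opn L2 k
      · left
        rw [hS1, mem_filter]
        exact ⟨hk.1, hk.2.1, opn_dvd hOPC hL11 hdvd hop⟩
      · exact Or.inr (Or.inl (small_of hOPC hL21 hk.2.2 hop))
    · rw [hBs, mem_image] at hk
      obtain ⟨j, hj, rfl⟩ := hk
      rw [mem_sdiff, hJ1, mem_filter, mem_Ioc] at hj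
      have h1 : M * j ≤ x := (Nat.mul_le_mul_left M hj.1.1.2).trans (by
        rw [hY]
        exact Nat.mul_div_le x M)
      rcases Nat.lt_or_ge (M * j) x with h | h
      · left
        rw [hS1, mem_filter, mem_range]
        exact ⟨by omega, hMeven j, opn_dvd hOPC hL11 hdvd hj.1.2⟩
      · exact Or.inr (Or.inr (by omega))
  have hcard : E.card + Bs.card ≤ S1.card + (2 ^ L2 + 1) := by
    rw [← card_union_of_disjoint hdisj]
    refine (card_le_card hsub).trans ((card_union_le _ _).trans ?_)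
    apply Nat.add_le_add_left
    refine (card_union_le _ _).trans ?_
    rw [card_range, card_singleton]
  have hcard' : (E.card : ℝ) + Bs.card ≤ S1.card + (2 ^ L2 + 1) := by exact_mod_cast hcard
  have hBlow' : (J1.card : ℝ) ≤ Bs.card + J2.card := by exact_mod_cast hBlow
  have hS1' : (S1.card : ℝ) ≤ dens L1 * x + (MM L1 + 1) := by
    have h1 := (abs_le.1 (hDEN L1 hL11 x)).2
    have h2 : cnt (fun k => Odd k ∧ Opn L1 k) x = S1.card := by
      rw [hS1]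
      unfold cnt
      congr!
    rw [h2] at h1
    linarith
  have hE' : cnt (fun k => Odd k ∧ PrimeLog A x k) x = E.card := by
    rw [hE]
    unfold cnt
    congr!
  have hJ1' : (Y : ℝ) / (2 + g) - MM L2 ≤ J1.card := by
    rw [hJ1]
    convert hx2
  have hJ2'' : (J2.card : ℝ) ≤ CD * A / L * Y := by
    rw [hJ2']
    convert hx1
  have h2g : 0 < 2 + g := by linarith
  have hJ3 : CD * A / L ≤ 1 / (4 * (2 + g)) := by
    rw [le_div_iff₀ (by positivity)]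
    calc CD * A / L * (4 * (2 + g))
        = 4 * (CD * A / L) * (2 + g) := by ring
      _ ≤ 1 := hJ
  have hYr : (x : ℝ) / M - 1 ≤ Y := by
    have h1 : x < M * (Y + 1) := by
      rw [hY]
      exact Nat.lt_mul_div_succ x (by omega)
    have h2 : (x : ℝ) < M * (Y + 1) := by exact_mod_cast h1
    have h3 : (x : ℝ) / M < Y + 1 := by
      rw [div_lt_iff₀ (by linarith)]
      linarith
    linarith
  have hY0 : (0 : ℝ) ≤ Y := Nat.cast_nonneg _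
  have hq : CD * A / L * Y ≤ 1 / (4 * (2 + g)) * Y :=
    mul_le_mul_of_nonneg_right hJ3 hY0
  have hq2 : (Y : ℝ) / (2 + g) - 1 / (4 * (2 + g)) * Y = 3 / (4 * (2 + g)) * Y := by
    field_simp
    ring
  have hq3 : 3 / (4 * (2 + g)) * ((x : ℝ) / M - 1) ≤ 3 / (4 * (2 + g)) * Y :=
    mul_le_mul_of_nonneg_left hYr (by positivity)
  have hq4 : 3 / (4 * (2 + g)) * ((x : ℝ) / M - 1) = 6 * δ * x - 3 / (4 * (2 + g)) := by
    rw [hδ]
    field_simp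
    ring
  have hq5 : 3 / (4 * (2 + g)) ≤ 1 := by
    rw [div_le_one (by positivity)]
    linarith
  have hx0 : (0 : ℝ) ≤ x := Nat.cast_nonneg _
  have hdx : dens L1 * x ≤ (K + δ) * x := mul_le_mul_of_nonneg_right hdL1 hx0
  have hδx : 0 ≤ δ * x := by positivity
  rw [hE']
  have hfin : (E.card : ℝ) ≤ (K + δ) * x + R - 6 * δ * x := by
    rw [hR]
    linarith
  have e1 : (K - δ) * (x : ℝ) = K * x - δ * x := by ring
  have e2 : (K + δ) * (x : ℝ) + R - 6 * δ * x = K * x + R - 5 * (δ * x) := by ring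
  rw [e1]
  rw [e2] at hfin
  linarith

end Pool.Agent.SPT
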