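import Pool.Agent.SPT.Fin

/-!
SPT (MP_315051_nt): the size of the loss.
-/

set_option autoImplicit false

open Finset
open Pool.Agent.Tri5 (T_MER)

namespace Pool.Agent.SPT

open Pool.Agent.SPA

/-- The choice of `J`, with a bound. -/
theorem choice (B g : ℝ) (hB : 0 ≤ B) (hg : 0 < g) : ∃ C0 : ℝ, 0 < C0 ∧ ∀ A : ℝ, 0 < A →
    ∃ J : ℕ, 2 ≤ J ∧ 4 * (B * A / ((2 ^ J : ℕ) : ℝ)) * (2 + g) ≤ 1 ∧
    ((2 ^ J : ℕ) : ℝ) ≤ C0 * (A + 1) := by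
  obtain ⟨b, hb⟩ : ∃ b : ℝ, b = 4 * B * (2 + g) := ⟨_, rfl⟩
  have hb0 : 0 ≤ b := by rw [hb]; positivity
  refine ⟨2 * (b + 4), by positivity, fun A hA => ?_⟩
  obtain ⟨y, hy⟩ : ∃ y : ℝ, y = (b + 4) * (A + 1) := ⟨_, rfl⟩
  have hbA : 0 ≤ b * A := by positivity
  have hy1 : b * A + 4 ≤ y := by rw [hy]; nlinarith
  obtain ⟨n, hn1, hn2⟩ := exists_nat_pow_near (x := y) (y := (2 : ℝ)) (by linarith) (by norm_num)
  obtain ⟨u, hu⟩ : ∃ u : ℝ, u = ((2 ^ (n + 1) : ℕ) : ℝ) := ⟨_, rfl⟩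
  have hu' : u = 2 ^ (n + 1) := by rw [hu]; push_cast; ring
  have hyu : y < u := by rw [hu']; exact hn2
  have huy : u ≤ 2 * y := by
    rw [hu', pow_succ]
    linarith
  have hu0 : 0 < u := by linarith
  refine ⟨n + 1, ?_, ?_, ?_⟩
  · by_contra hc
    have hn0 : n = 0 := by omega
    rw [hn0] at hu'
    norm_num at hu'
    linarith
  · rw [← hu]
    have e1 : 4 * (B * A / u) * (2 + g) = b * A / u := by rw [hb]; ring
    rw [e1, div_le_one hu0]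
    linarith
  · rw [← hu]
    calc u ≤ 2 * y := huy
      _ = _ := by rw [hy]; ring

/-- The lower bound for the loss. -/
theorem loss (g : ℝ) (hg : 0 < g) : ∃ c : ℝ, 0 < c ∧ ∀ L : ℕ, 1 ≤ L →
    Real.exp (-(c * L)) ≤ 1 / (8 * MM L * (2 + g)) := by
  have hc2 : 0 < Real.log (16 * (2 + g)) := Real.log_pos (by linarith)
  have hl2 : 0 < Real.log 2 := Real.log_pos (by norm_num)
  refine ⟨Real.log (16 * (2 + g)) + Real.log 2, by positivity, fun L hL => ?_⟩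
  have hLr : (1 : ℝ) ≤ L := by exact_mod_cast hL
  have hM0 : 0 < (MM L : ℝ) := by
    unfold MM
    have : 2 ^ 1 ≤ 2 ^ L := Nat.pow_le_pow_right (by norm_num) hL
    have h2 : 0 < 2 * (2 ^ L - 1) := by omega
    exact_mod_cast h2
  have hM : (MM L : ℝ) ≤ 2 * 2 ^ L := by
    unfold MM
    have h2 : 2 * (2 ^ L - 1) ≤ 2 * 2 ^ L := by omega
    exact_mod_cast h2
  have h3 : 8 * (MM L : ℝ) * (2 + g) ≤ 16 * (2 + g) * 2 ^ L := by
    calc 8 * (MM L : ℝ) * (2 + g) ≤ 8 * (2 * 2 ^ L) * (2 + g) :=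
          mul_le_mul_of_nonneg_right (by linarith) (by linarith)
      _ = _ := by ring
  have h4 : 16 * (2 + g) * (2 : ℝ) ^ L ≤
      Real.exp ((Real.log (16 * (2 + g)) + Real.log 2) * L) := by
    have e1 : 16 * (2 + g) * (2 : ℝ) ^ L =
        Real.exp (Real.log (16 * (2 + g)) + Real.log 2 * L) := by
      rw [Real.exp_add, Real.exp_log (by linarith), mul_comm (Real.log 2), Real.exp_nat_mul,
        Real.exp_log (by norm_num)]
    rw [e1]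
    apply Real.exp_le_exp.2
    nlinarith
  have h5 : 0 < 8 * (MM L : ℝ) * (2 + g) := by positivity
  rw [Real.exp_neg, ← one_div]
  exact one_div_le_one_div_of_le h5 (h3.trans h4)

theorem thmQ (hMER : T_MER) (hSH : T_SH) (hFL : T_FL) (hRH1 : T_RH1)
    (hRH2 : T_RH2) (hPR2 : T_PR2) (hOPC : T_OPC) (hDEN : T_DEN) (K : ℝ)
    (hK : ∀ K' : ℝ, (∀ L : ℕ, 1 ≤ L → K' ≤ dens L) → K' ≤ K) :
    ∃ C : ℝ, 0 < C ∧ ∀ A : ℝ, 0 < A → ∃ x0 : ℕ, ∀ x : ℕ, x0 ≤ x →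
      cnt (fun k => Odd k ∧ PrimeLog A x k) x ≤ (K - Real.exp (-(C * (A + 1)))) * x := by
  obtain ⟨g, hg, hrom⟩ := romJ hMER
  obtain ⟨CD, hCD, htot⟩ := tot hFL hRH1
  obtain ⟨C0, hC0, hch⟩ := choice CD g hCD.le hg
  obtain ⟨c, hc, hls⟩ := loss g hg
  refine ⟨c * C0, by positivity, fun A hA => ?_⟩
  obtain ⟨J, hJ2, hJ, hJC⟩ := hch A hA
  obtain ⟨x0, hx⟩ := core hMER hSH hRH2 hPR2 hOPC hDEN K hK g hg hrom CD A J hJ
    (htot J hJ2 A hA)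
  refine ⟨x0, fun x hx0 => (hx x hx0).trans ?_⟩
  apply mul_le_mul_of_nonneg_right _ (Nat.cast_nonneg x)
  have h1 := hls (2 ^ J) Nat.one_le_two_pow
  have h2 : Real.exp (-(c * C0 * (A + 1))) ≤ Real.exp (-(c * ((2 ^ J : ℕ) : ℝ))) := by
    apply Real.exp_le_exp.2
    have h3 : c * ((2 ^ J : ℕ) : ℝ) ≤ c * (C0 * (A + 1)) :=
      mul_le_mul_of_nonneg_left hJC hc.le
    linarith
  linarith

end Pool.Agent.SPT
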