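import Pool.Agent.SPA.Targets

/-!
SPT (MP_315051_nt): sieve upper bound in the class `k ≡ 1 (mod 2 (2 ^ L - 1))`.
-/

set_option autoImplicit false

open Finset
open Pool.Agent.TSP (Per rho)

namespace Pool.Agent.SPT

open Pool.Agent.SPA

theorem dvd15 {L : ℕ} (h : 4 ∣ L) : 15 ∣ 2 ^ L - 1 := by
  obtain ⟨c, rfl⟩ := h
  rw [pow_mul]
  have := Nat.sub_dvd_pow_sub_pow (2 ^ 4) 1 c
  rw [one_pow] at this
  exact this

theorem mem_PS {L z p : ℕ} : p ∈ PS L z ↔ p.Prime ∧ p ≤ z ∧ ¬ p ∣ 2 * (2 ^ L - 1) := by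
  unfold PS
  rw [mem_filter, mem_Icc]
  constructor
  · rintro ⟨⟨_, h2⟩, h3, h4⟩
    exact ⟨h3, h2, h4⟩
  · rintro ⟨h1, h2, h3⟩
    exact ⟨⟨h1.one_lt.le, h2⟩, h1, h3⟩

theorem PS_seven {L z p : ℕ} (hL : 4 ∣ L) (hp : p ∈ PS L z) : 7 ≤ p := by
  obtain ⟨h1, h2, h3⟩ := mem_PS.1 hp
  have h15 := dvd15 hL
  have a2 : p ≠ 2 := by
    rintro rfl
    exact h3 (dvd_mul_right _ _)
  have a3 : p ≠ 3 := by
    rintro rfl
    exact h3 (((by norm_num : (3 : ℕ) ∣ 15).trans h15).mul_left _)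
  have a5 : p ≠ 5 := by
    rintro rfl
    exact h3 (((by norm_num : (5 : ℕ) ∣ 15).trans h15).mul_left _)
  have a0 := h1.two_le
  by_contra hc
  have : p = 4 ∨ p = 6 := by omega
  rcases this with rfl | rfl
  · exact absurd h1 (by norm_num)
  · exact absurd h1 (by norm_num)

theorem sie (hFL : T_FL) (hRH : T_RH1) : ∃ s z0 : ℕ, 1 ≤ s ∧ ∀ L : ℕ, 4 ∣ L → ∀ z Y n : ℕ,
    z0 ≤ z → z ^ s ≤ Y →
    (((Ioc 0 Y).filter fun j => ∀ p ∈ PS L z, ¬ p ∣ (1 + MM L * j) * 2 ^ n + 1).card : ℝ) ≤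
      2 * (Y * VV L z) := by
  classical
  obtain ⟨s, z0, hs, h⟩ := hFL 1 one_pos
  refine ⟨s, z0, hs, fun L hL z Y n hz hY => ?_⟩
  obtain ⟨hper, hrho⟩ := hRH 1 (MM L) (2 ^ n)
  have hr : ∀ p ∈ PS L z, rho (fun p j => p ∣ (1 + MM L * j) * 2 ^ n + 1) p = 1 := by
    intro p hp
    obtain ⟨h1, h2, h3⟩ := mem_PS.1 hp
    refine hrho p h1 ?_
    intro hd
    rcases (Nat.Prime.dvd_mul h1).1 hd with h4 | h4
    · exact h3 h4
    · have h5 := (Nat.prime_dvd_prime_iff_eq h1 Nat.prime_two).1 (h1.dvd_of_dvd_pow h4)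
      rw [h5] at h3
      exact h3 (dvd_mul_right _ _)
  have h1 := h _ hper (PS L z) z 0 Y hz hY (fun p hp =>
    ⟨(mem_PS.1 hp).1, PS_seven hL hp, (mem_PS.1 hp).2.1, by rw [hr p hp]; norm_num⟩)
  have e1 : ∏ p ∈ PS L z, (1 - (rho (fun p j => p ∣ (1 + MM L * j) * 2 ^ n + 1) p : ℝ) / p) =
      VV L z := by
    unfold VV
    refine prod_congr rfl fun p hp => ?_
    rw [hr p hp, Nat.cast_one]
  rw [e1, zero_add, one_mul] at h1
  have e2 : ∑ j ∈ Ioc 0 Y, xx (fun p j => p ∣ (1 + MM L * j) * 2 ^ n + 1) (PS L z) j =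
      (((Ioc 0 Y).filter fun j => ∀ p ∈ PS L z, ¬ p ∣ (1 + MM L * j) * 2 ^ n + 1).card : ℝ) := by
    rw [card_filter]
    push_cast
    refine sum_congr rfl fun j _ => ?_
    unfold xx
    congr
  rw [e2] at h1
  have := (abs_le.1 h1).2
  linarith

end Pool.Agent.SPT
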