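import Pool.Agent.SPA.P_GSM

/-!
SPT (MP_315051_nt): sums of `1 / (p - 1)` over primes dividing `2 ^ (2 ^ i * e) - 1` with small `e`.
-/

set_option autoImplicit false

open Finset

namespace Pool.Agent.SPT

open Pool.Agent.SPA

theorem sumA (P : Finset ℕ) (i N : ℕ) (hN : P.card ≤ N)
    (hP : ∀ p ∈ P, p.Prime ∧ 2 ^ i ∣ p - 1) :
    ∑ p ∈ P, 1 / ((p : ℝ) - 1) ≤ (1 + Real.log N) / 2 ^ i := by
  have hD : 0 < 2 ^ i := by positivity
  obtain ⟨f, hf⟩ : ∃ f : ℕ → ℕ, f = fun p => (p - 1) / 2 ^ i := ⟨_, rfl⟩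
  have hinj : Set.InjOn f (P : Set ℕ) := by
    intro p hp q hq hpq
    rw [hf] at hpq
    have h1 := Nat.div_mul_cancel (hP p hp).2
    have h2 := Nat.div_mul_cancel (hP q hq).2
    simp only at hpq
    rw [hpq, h2] at h1
    have := (hP p hp).1.two_le
    have := (hP q hq).1.two_le
    omega
  have e : ∑ p ∈ P, 1 / ((p : ℝ) - 1) =
      (1 / (2 : ℝ) ^ i) * ∑ j ∈ P.image f, (1 : ℝ) / j := by
    rw [sum_image hinj, mul_sum]
    apply sum_congr rfl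
    intro p hp
    rw [hf]
    have h1 := Nat.div_mul_cancel (hP p hp).2
    have h2 := (hP p hp).1.two_le
    obtain ⟨q, hq⟩ : ∃ q, q = (p - 1) / 2 ^ i := ⟨_, rfl⟩
    rw [← hq] at h1
    simp only [← hq]
    have h3 : ((p : ℝ) - 1) = (q : ℝ) * (2 : ℝ) ^ i := by
      have h4 : q * 2 ^ i + 1 = p := by omega
      have h5 : ((q * 2 ^ i + 1 : ℕ) : ℝ) = p := by rw [h4]
      push_cast at h5
      linarith
    rw [h3, one_div_mul_one_div, mul_comm]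
  rw [e]
  have hlog := GS1_.sum_inv_log (P.image f) N (by
    intro j hj
    rw [mem_image] at hj
    obtain ⟨p, hp, rfl⟩ := hj
    rw [hf]
    have h2 := (hP p hp).1.two_le
    exact Nat.div_pos (Nat.le_of_dvd (by omega) (hP p hp).2) hD) (card_image_le.trans hN)
  calc _ ≤ (1 / (2 : ℝ) ^ i) * (1 + Real.log N) := mul_le_mul_of_nonneg_left hlog (by positivity)
    _ = _ := by ring

theorem tele (w : ℝ) (n0 m : ℕ) :
    ∑ i ∈ range m, (3 + ((n0 + i : ℕ) : ℝ) + 2 * w) / 2 ^ (n0 + i) =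
      2 * (4 + (n0 : ℝ) + 2 * w) / 2 ^ n0 -
        2 * (4 + ((n0 + m : ℕ) : ℝ) + 2 * w) / 2 ^ (n0 + m) := by
  induction m with
  | zero => simp
  | succ m ih =>
    rw [sum_range_succ, ih, show n0 + (m + 1) = (n0 + m) + 1 by ring, pow_succ]
    push_cast
    field_simp
    ring

theorem sumI (P : Finset ℕ) (n0 E : ℕ) (hE : 1 ≤ E)
    (hP : ∀ p ∈ P, p.Prime ∧ ∃ i, n0 ≤ i ∧ 2 ^ i ∣ p - 1 ∧
      ∃ e, 1 ≤ e ∧ e ≤ E ∧ p ∣ 2 ^ (2 ^ i * e) - 1) :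
    ∑ p ∈ P, 1 / ((p : ℝ) - 1) ≤ 2 * (4 + (n0 : ℝ) + 2 * Real.log E) / 2 ^ n0 := by
  classical
  have hw0 : 0 ≤ Real.log E := Real.log_nonneg (by exact_mod_cast hE)
  obtain ⟨Q, hQ⟩ : ∃ Q : ℕ → Finset ℕ, Q = fun i => P.filter fun p => 2 ^ i ∣ p - 1 ∧
    ∃ e, 1 ≤ e ∧ e ≤ E ∧ p ∣ 2 ^ (2 ^ i * e) - 1 := ⟨_, rfl⟩
  have hpos : ∀ p ∈ P, (0 : ℝ) < (p : ℝ) - 1 := by
    intro p hp
    have : (2 : ℝ) ≤ p := by exact_mod_cast (hP p hp).1.two_le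
    linarith
  have h1 : ∑ p ∈ P, 1 / ((p : ℝ) - 1) ≤
      ∑ i ∈ range (P.sup id), ∑ p ∈ Q (n0 + i), 1 / ((p : ℝ) - 1) := by
    rw [hQ]
    simp_rw [sum_filter]
    rw [sum_comm]
    apply sum_le_sum
    intro p hp
    obtain ⟨hpp, i, hi, hi2, hi3⟩ := hP p hp
    have hnn : ∀ k ∈ range (P.sup id), 0 ≤ (if 2 ^ (n0 + k) ∣ p - 1 ∧
        ∃ e, 1 ≤ e ∧ e ≤ E ∧ p ∣ 2 ^ (2 ^ (n0 + k) * e) - 1 then 1 / ((p : ℝ) - 1) else 0) := by
      intro k _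
      have := hpos p hp
      split_ifs <;> positivity
    have hmem : i - n0 ∈ range (P.sup id) := by
      rw [mem_range]
      have a1 : i < 2 ^ i := Nat.lt_two_pow_self
      have a2 := hpp.two_le
      have a3 : 2 ^ i ≤ p - 1 := Nat.le_of_dvd (by omega) hi2
      have a4 : p ≤ P.sup id := Finset.le_sup (f := id) hp
      omega
    refine le_trans ?_ (single_le_sum hnn hmem)
    rw [show n0 + (i - n0) = i by omega, if_pos ⟨hi2, hi3⟩]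
  have h2 : ∀ i : ℕ, ∑ p ∈ Q i, 1 / ((p : ℝ) - 1) ≤ (3 + (i : ℝ) + 2 * Real.log E) / 2 ^ i := by
    intro i
    have hQp : ∀ p ∈ Q i, p.Prime ∧ 2 ^ i ∣ p - 1 ∧
        ∃ e, 1 ≤ e ∧ e ≤ E ∧ p ∣ 2 ^ (2 ^ i * e) - 1 := by
      intro p hp
      rw [hQ, mem_filter] at hp
      exact ⟨(hP p hp.1).1, hp.2⟩
    have hc : (Q i).card ≤ 3 * 2 ^ i * E ^ 2 :=
      GS1_.card_bound (2 ^ i) E (Q i) Nat.one_le_two_pow (fun p hp => ⟨(hQp p hp).1, (hQp p hp).2.2⟩)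
    refine (sumA (Q i) i (3 * 2 ^ i * E ^ 2) hc (fun p hp => ⟨(hQp p hp).1, (hQp p hp).2.1⟩)).trans ?_
    apply div_le_div_of_nonneg_right _ (by positivity)
    have hE0 : (E : ℝ) ≠ 0 := by
      have : (1 : ℝ) ≤ E := by exact_mod_cast hE
      linarith
    have e1 : Real.log ((3 * 2 ^ i * E ^ 2 : ℕ) : ℝ) =
        Real.log 3 + i * Real.log 2 + 2 * Real.log E := by
      push_cast
      rw [Real.log_mul (by positivity) (by positivity), Real.log_mul (by norm_num) (by positivity),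
        Real.log_pow, Real.log_pow]
      push_cast
      ring
    rw [e1]
    have e2 : Real.log 3 ≤ 2 := (Real.log_le_sub_one_of_pos (by norm_num)).trans (by norm_num)
    have e3 : Real.log 2 ≤ 1 := (Real.log_le_sub_one_of_pos (by norm_num)).trans (by norm_num)
    have e4 : (i : ℝ) * Real.log 2 ≤ i * 1 := mul_le_mul_of_nonneg_left e3 (Nat.cast_nonneg _)
    linarith
  refine h1.trans ((sum_le_sum fun i _ => h2 (n0 + i)).trans ?_)
  rw [tele (Real.log E) n0 (P.sup id)]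
  have : 0 ≤ 2 * (4 + ((n0 + P.sup id : ℕ) : ℝ) + 2 * Real.log E) / 2 ^ (n0 + P.sup id) := by
    positivity
  linarith

/-- The order of `2` modulo a prime factor of `2 ^ (2 ^ J * e) - 1`. -/
theorem ordJ (J E p e : ℕ) (hp : p.Prime) (hp2 : 2 < p) (he1 : 1 ≤ e) (heE : e ≤ E)
    (hd : p ∣ 2 ^ (2 ^ J * e) - 1) :
    ∃ i, 2 ^ i ∣ p - 1 ∧ ∃ e', 1 ≤ e' ∧ e' ≤ E ∧ p ∣ 2 ^ (2 ^ i * e') - 1 := by
  have : Fact p.Prime := ⟨hp⟩
  have h20 : (2 : ZMod p) ≠ 0 := by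
    intro h
    have : ((2 : ℕ) : ZMod p) = 0 := by exact_mod_cast h
    rw [ZMod.natCast_eq_zero_iff] at this
    have := Nat.le_of_dvd (by norm_num) this
    omega
  obtain ⟨o, ho⟩ : ∃ o, o = orderOf (2 : ZMod p) := ⟨_, rfl⟩
  have ho1 : o ∣ p - 1 := by rw [ho]; exact ZMod.orderOf_dvd_card_sub_one h20
  have ho0 : o ≠ 0 := (Nat.pos_of_dvd_of_pos ho1 (by omega)).ne'
  have ho2 : o ∣ 2 ^ J * e := by
    rw [ho]
    apply orderOf_dvd_of_pow_eq_one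
    have h1 : ((2 ^ (2 ^ J * e) - 1 : ℕ) : ZMod p) = 0 := (ZMod.natCast_eq_zero_iff _ _).2 hd
    rw [Nat.cast_sub (Nat.one_le_pow _ _ (by norm_num))] at h1
    push_cast at h1
    exact sub_eq_zero.1 h1
  have ho3 : p ∣ 2 ^ o - 1 := by
    rw [← ZMod.natCast_eq_zero_iff, Nat.cast_sub (Nat.one_le_pow _ _ (by norm_num))]
    push_cast
    rw [ho, pow_orderOf_eq_one, sub_self]
  obtain ⟨i, m, hm, him⟩ := Nat.exists_eq_two_pow_mul_odd ho0
  refine ⟨i, (Dvd.intro _ him.symm).trans ho1, ?_⟩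
  rcases Nat.lt_or_ge J i with h | h
  · refine ⟨e, he1, heE, hd.trans ?_⟩
    obtain ⟨t, ht⟩ : 2 ^ J * e ∣ 2 ^ i * e := Nat.mul_dvd_mul_right (pow_dvd_pow 2 h.le) e
    rw [ht, pow_mul 2 (2 ^ J * e) t]
    have := Nat.sub_dvd_pow_sub_pow (2 ^ (2 ^ J * e)) 1 t
    rwa [one_pow] at this
  · have h1 : m ∣ 2 ^ J * e := (Dvd.intro_left _ him.symm).trans ho2
    have h2 : Nat.Coprime m (2 ^ J) := (Nat.Coprime.pow_right _ hm.coprime_two_right)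
    have hme : m ∣ e := h2.dvd_of_dvd_mul_left h1
    refine ⟨m, hm.pos, (Nat.le_of_dvd he1 hme).trans heE, ?_⟩
    rw [← him]
    exact ho3

/-- The product is at most the exponential of the sum. -/
theorem prod_exp (P : Finset ℕ) (hP : ∀ p ∈ P, p.Prime) :
    ∏ p ∈ P, (1 + 1 / ((p : ℝ) - 1)) ≤ Real.exp (∑ p ∈ P, 1 / ((p : ℝ) - 1)) := by
  rw [Real.exp_sum]
  apply prod_le_prod
  · intro p hp
    have : (2 : ℝ) ≤ p := by exact_mod_cast (hP p hp).two_le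
    have : (0 : ℝ) < (p : ℝ) - 1 := by linarith
    positivity
  · intro p hp
    have := Real.add_one_le_exp (1 / ((p : ℝ) - 1))
    linarith

end Pool.Agent.SPT
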