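import Pool.Agent.SPT.Sum
import Pool.Agent.TSP.Tools

/-!
SPT (MP_315051_nt): upper bound for the product over the primes of `PS L z`.
-/

set_option autoImplicit false

open Finset
open Pool.Agent.Cyclic (pr mem_pr)

namespace Pool.Agent.SPT

open Pool.Agent.SPA

theorem vup0 (L z : ℕ) (B : ℝ) (hL : 1 ≤ L) (hz : 2 ≤ z)
    (hB : ∀ Q : Finset ℕ, (∀ p ∈ Q, p.Prime ∧ 2 < p ∧ p ∣ 2 ^ L - 1) →
      ∏ p ∈ Q, (1 + 1 / ((p : ℝ) - 1)) ≤ B) : VV L z * Real.log z ≤ 2 * B := by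
  have hz0 : (2 : ℝ) ≤ z := by exact_mod_cast hz
  have hm1 : 1 ≤ 2 ^ L - 1 := by
    have : 2 ^ 1 ≤ 2 ^ L := Nat.pow_le_pow_right (by norm_num) hL
    omega
  obtain ⟨Q, hQ⟩ : ∃ Q : Finset ℕ, Q = (pr z).filter (fun p => p ∣ 2 * (2 ^ L - 1)) := ⟨_, rfl⟩
  have hQp : ∀ p ∈ Q, p.Prime := fun p hp => by
    rw [hQ, mem_filter] at hp
    exact (mem_pr.1 hp.1).2
  have hfac : ∀ p : ℕ, p.Prime → 0 < 1 - 1 / (p : ℝ) := by
    intro p hp
    have h2 : (2 : ℝ) ≤ p := by exact_mod_cast hp.two_le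
    have : 1 / (p : ℝ) ≤ 1 / 2 := one_div_le_one_div_of_le (by norm_num) h2
    linarith
  have hprod : VV L z * ∏ p ∈ Q, (1 - 1 / (p : ℝ)) = ∏ p ∈ pr z, (1 - 1 / (p : ℝ)) := by
    have e : PS L z = (pr z).filter (fun p => ¬ p ∣ 2 * (2 ^ L - 1)) := by
      ext p
      unfold PS
      rw [mem_filter, mem_filter, mem_Icc, mem_pr]
      constructor
      · rintro ⟨⟨_, h2⟩, h3, h4⟩
        exact ⟨⟨h2, h3⟩, h4⟩
      · rintro ⟨⟨h2, h1⟩, h3⟩
        exact ⟨⟨h1.one_lt.le, h2⟩, h1, h3⟩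
    unfold VV
    rw [e, hQ, mul_comm]
    exact prod_filter_mul_prod_filter_not (pr z) (fun p => p ∣ 2 * (2 ^ L - 1))
      (fun p : ℕ => 1 - 1 / (p : ℝ))
  have hmer := Pool.Agent.TSP.mertens z
  rw [← hprod] at hmer
  -- the odd primes of `Q`
  obtain ⟨Q', hQ'⟩ : ∃ Q' : Finset ℕ, Q' = Q.erase 2 := ⟨_, rfl⟩
  have hQ'p : ∀ p ∈ Q', p.Prime ∧ 2 < p ∧ p ∣ 2 ^ L - 1 := by
    intro p hp
    rw [hQ', mem_erase] at hp
    have a1 := hQp p hp.2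
    have a2 := a1.two_le
    have a3 : p ∣ 2 * (2 ^ L - 1) := by
      have := hp.2
      rw [hQ, mem_filter] at this
      exact this.2
    refine ⟨a1, by have := hp.1; omega, ?_⟩
    rcases (Nat.Prime.dvd_mul a1).1 a3 with h | h
    · exact absurd ((Nat.prime_dvd_prime_iff_eq a1 Nat.prime_two).1 h) hp.1
    · exact h
  have hm := hB Q' hQ'p
  have hinv : ∀ p ∈ Q', (1 - 1 / (p : ℝ)) * (1 + 1 / ((p : ℝ) - 1)) = 1 := by
    intro p hp
    have : (2 : ℝ) < p := by exact_mod_cast (hQ'p p hp).2.1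
    have b1 : (p : ℝ) ≠ 0 := by linarith
    have b2 : (p : ℝ) - 1 ≠ 0 := by linarith
    field_simp
    ring
  have hone : (∏ p ∈ Q', (1 - 1 / (p : ℝ))) * ∏ p ∈ Q', (1 + 1 / ((p : ℝ) - 1)) = 1 := by
    rw [← prod_mul_distrib, prod_congr rfl hinv, prod_const_one]
  have hQ'pos : 0 < ∏ p ∈ Q', (1 - 1 / (p : ℝ)) := prod_pos fun p hp => hfac p (hQ'p p hp).1
  have hQge : (1 : ℝ) / 2 * ∏ p ∈ Q', (1 - 1 / (p : ℝ)) ≤ ∏ p ∈ Q, (1 - 1 / (p : ℝ)) := by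
    by_cases h : 2 ∈ Q
    · rw [← mul_prod_erase Q _ h, ← hQ']
      norm_num
    · rw [hQ', erase_eq_of_notMem h]
      have : 0 < ∏ p ∈ Q, (1 - 1 / (p : ℝ)) := prod_pos fun p hp => hfac p (hQp p hp)
      linarith
  have hVV0 : 0 ≤ VV L z := by
    unfold VV
    refine prod_nonneg fun p hp => ?_
    unfold PS at hp
    rw [mem_filter] at hp
    exact (hfac p hp.2.1).le
  obtain ⟨E, hE⟩ : ∃ E : ℝ, E = ∏ p ∈ Q', (1 + 1 / ((p : ℝ) - 1)) := ⟨_, rfl⟩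
  obtain ⟨F, hF⟩ : ∃ F : ℝ, F = ∏ p ∈ Q', (1 - 1 / (p : ℝ)) := ⟨_, rfl⟩
  obtain ⟨G, hG⟩ : ∃ G : ℝ, G = ∏ p ∈ Q, (1 - 1 / (p : ℝ)) := ⟨_, rfl⟩
  rw [← hE] at hm hone
  rw [← hF] at hone hQge hQ'pos
  rw [← hG] at hQge hmer
  have hE0 : 0 < E := by
    by_contra hc
    have : F * E ≤ 0 := mul_nonpos_of_nonneg_of_nonpos hQ'pos.le (not_lt.1 hc)
    linarith
  have hlog : Real.log z ≤ Real.log (z + 1) := Real.log_le_log (by linarith) (by linarith)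
  have hlog0 : 0 ≤ Real.log z := Real.log_nonneg (by linarith)
  have hW : VV L z * Real.log z ≤ 2 * E := by
    have c1 : VV L z * (1 / 2 * F) * Real.log z ≤ 1 := by
      calc VV L z * (1 / 2 * F) * Real.log z ≤ VV L z * G * Real.log (z + 1) := by
            apply mul_le_mul _ hlog hlog0
            · exact mul_nonneg hVV0 (le_trans (by positivity) hQge)
            · exact mul_le_mul_of_nonneg_left hQge hVV0
        _ ≤ 1 := hmer
    have c2 : VV L z * Real.log z = VV L z * (1 / 2 * F) * Real.log z * (2 * E) := by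
      calc VV L z * Real.log z = VV L z * Real.log z * (F * E) := by rw [hone, mul_one]
        _ = _ := by ring
    rw [c2]
    calc VV L z * (1 / 2 * F) * Real.log z * (2 * E) ≤ 1 * (2 * E) :=
          mul_le_mul_of_nonneg_right c1 (by linarith)
      _ = 2 * E := one_mul _
  exact hW.trans (mul_le_mul_of_nonneg_left hm (by norm_num))

/-- The case `L = 2 ^ J`. -/
theorem vupJ (J z : ℕ) (hz : 2 ≤ z) : VV (2 ^ J) z * Real.log z ≤ 2 * Real.exp 8 := by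
  refine vup0 (2 ^ J) z (Real.exp 8) Nat.one_le_two_pow hz (fun Q hQ => ?_)
  refine (prod_exp Q (fun p hp => (hQ p hp).1)).trans (Real.exp_le_exp.2 ?_)
  have h1 := sumI Q 0 1 le_rfl (fun p hp => by
    obtain ⟨hp1, hp2, hp3⟩ := hQ p hp
    obtain ⟨i, hi, hi2⟩ := ordJ J 1 p 1 hp1 hp2 le_rfl le_rfl (by rwa [mul_one])
    exact ⟨hp1, i, Nat.zero_le _, hi, hi2⟩)
  refine h1.trans (le_of_eq ?_)
  simp
  norm_num

end Pool.Agent.SPT
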