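import Pool.Agent.SPT.Fer
import Pool.Agent.SPT.Vup
import Pool.Agent.SPT.Sie

/-!
SPT (MP_315051_nt): few `k ≡ 1 (mod 2 (2 ^ L - 1))`, `L = 2 ^ J`, have a prime `k * 2 ^ n + 1` with
`n ≤ A log x`.
-/

set_option autoImplicit false

open Finset

namespace Pool.Agent.SPT

open Pool.Agent.SPA

/-- For some `n` between `1` and `A * log x` the number `k * 2 ^ n + 1` is prime. -/
def PrimeLog (A : ℝ) (x k : ℕ) : Prop :=
  ∃ n : ℕ, 1 ≤ n ∧ (n : ℝ) ≤ A * Real.log x ∧ (k * 2 ^ n + 1).Prime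

theorem root (s Y : ℕ) (hs : 1 ≤ s) : ∃ z : ℕ, z ^ s ≤ Y ∧ Y < (z + 1) ^ s := by
  classical
  refine ⟨Nat.findGreatest (fun z => z ^ s ≤ Y) Y, ?_, ?_⟩
  · apply Nat.findGreatest_spec (P := fun z => z ^ s ≤ Y) (m := 0) (Nat.zero_le _)
    rw [zero_pow (by omega)]
    exact Nat.zero_le _
  · by_contra hc
    rw [not_lt] at hc
    have h1 : Nat.findGreatest (fun z => z ^ s ≤ Y) Y + 1 ≤ Y := by
      refine le_trans ?_ hc
      exact Nat.le_self_pow (by omega) _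
    exact Nat.findGreatest_is_greatest (P := fun z => z ^ s ≤ Y) (Nat.lt_succ_self _) h1 hc

open Classical in
theorem one_n {s z0 : ℕ} (h : ∀ L : ℕ, 4 ∣ L → ∀ z Y n : ℕ, z0 ≤ z → z ^ s ≤ Y →
    (((Ioc 0 Y).filter fun j => ∀ p ∈ PS L z, ¬ p ∣ (1 + MM L * j) * 2 ^ n + 1).card : ℝ) ≤
      2 * (Y * VV L z)) (L z Y n : ℕ) (hL : 4 ∣ L) (hz : z0 ≤ z) (hY : z ^ s ≤ Y) (hL1 : 1 ≤ L) :
    (((Ioc 0 Y).filter fun j => ((1 + MM L * j) * 2 ^ n + 1).Prime).card : ℝ) ≤
      2 * (Y * VV L z) + z := by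
  have h1 := h L hL z Y n hz hY
  have hM : 1 ≤ MM L := by
    unfold MM
    have : 2 ^ 1 ≤ 2 ^ L := Nat.pow_le_pow_right (by norm_num) hL1
    omega
  have hsub : ((Ioc 0 Y).filter fun j => ((1 + MM L * j) * 2 ^ n + 1).Prime) ⊆
      ((Ioc 0 Y).filter fun j => ∀ p ∈ PS L z, ¬ p ∣ (1 + MM L * j) * 2 ^ n + 1) ∪ Ioc 0 z := by
    intro j hj
    rw [mem_filter] at hj
    rw [mem_union, mem_filter]
    rcases le_or_gt j z with hjz | hjz
    · exact Or.inr (mem_Ioc.2 ⟨(mem_Ioc.1 hj.1).1, hjz⟩)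
    · refine Or.inl ⟨hj.1, fun p hp hd => ?_⟩
      unfold PS at hp
      rw [mem_filter, mem_Icc] at hp
      have hpe := (Nat.prime_dvd_prime_iff_eq hp.2.1 hj.2).1 hd
      have h2 : j ≤ MM L * j := Nat.le_mul_of_pos_left _ hM
      have h3 : 1 + MM L * j ≤ (1 + MM L * j) * 2 ^ n :=
        Nat.le_mul_of_pos_right _ (by positivity)
      have := hp.1.2
      omega
  have h2 := (card_le_card hsub).trans (card_union_le _ _)
  rw [Nat.card_Ioc, Nat.sub_zero] at h2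
  have h3 : (((Ioc 0 Y).filter fun j => ((1 + MM L * j) * 2 ^ n + 1).Prime).card : ℝ) ≤
      (((Ioc 0 Y).filter fun j => ∀ p ∈ PS L z, ¬ p ∣ (1 + MM L * j) * 2 ^ n + 1).card : ℝ) +
        z := by
    exact_mod_cast h2
  linarith

open Classical in
theorem tot (hFL : T_FL) (hRH : T_RH1) : ∃ C : ℝ, 0 < C ∧ ∀ J : ℕ, 2 ≤ J →
    ∀ A : ℝ, 0 < A → ∃ x0 : ℕ, ∀ x : ℕ, x0 ≤ x →
    (((Ioc 0 (x / MM (2 ^ J))).filter fun j => PrimeLog A x (1 + MM (2 ^ J) * j)).card : ℝ) ≤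
      C * A / ((2 ^ J : ℕ) : ℝ) * ((x / MM (2 ^ J) : ℕ) : ℝ) := by
  obtain ⟨s, z0, hs, hsie⟩ := sie hFL hRH
  obtain ⟨C, hCd⟩ : ∃ C : ℝ, C = 2 * Real.exp 8 := ⟨_, rfl⟩
  have hC : 0 < C := by rw [hCd]; positivity
  obtain ⟨s', hs'⟩ : ∃ s', s' = s + 1 := ⟨_, rfl⟩
  refine ⟨8 * s' * C + 4 * s', by rw [hs']; positivity, fun J hJ A hA => ?_⟩
  obtain ⟨L, hL⟩ : ∃ L, L = 2 ^ J := ⟨_, rfl⟩
  have hvup : ∀ z : ℕ, 2 ≤ z → VV L z * Real.log z ≤ C := by
    intro z hz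
    rw [hL, hCd]
    exact vupJ J z hz
  rw [← hL]
  have hL4 : 4 ∣ L := by
    rw [hL]
    exact pow_dvd_pow 2 hJ
  have hL1 : 1 ≤ L := by rw [hL]; exact Nat.one_le_two_pow
  have hM : 1 ≤ MM L := by
    unfold MM
    have : 2 ^ 1 ≤ 2 ^ L := Nat.pow_le_pow_right (by norm_num) hL1
    omega
  obtain ⟨m, hm⟩ : ∃ m, m = max z0 2 := ⟨_, rfl⟩
  refine ⟨MM L * (m ^ s' + 2 * MM L), fun x hx => ?_⟩
  obtain ⟨Y, hY⟩ : ∃ Y, Y = x / MM L := ⟨_, rfl⟩
  rw [← hY]
  have hYN : m ^ s' + 2 * MM L ≤ Y := by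
    rw [hY]
    exact (Nat.le_div_iff_mul_le (by omega)).2 (by rw [mul_comm]; exact hx)
  obtain ⟨z, hz1, hz2⟩ := root s' Y (by omega)
  have hmz : m ≤ z := by
    by_contra hc
    have h1 : (z + 1) ^ s' ≤ m ^ s' := Nat.pow_le_pow_left (by omega) _
    omega
  have hzz0 : z0 ≤ z := le_trans (by rw [hm]; exact le_max_left _ _) hmz
  have hz2' : 2 ≤ z := le_trans (by rw [hm]; exact le_max_right _ _) hmz
  have hzs : z ^ s ≤ Y := le_trans (Nat.pow_le_pow_right (by omega) (by omega)) hz1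
  have hY1 : 1 ≤ Y := by omega
  have hzr : (2 : ℝ) ≤ z := by exact_mod_cast hz2'
  have hlz : 0 < Real.log z := Real.log_pos (by linarith)
  have hYr : (1 : ℝ) ≤ Y := by exact_mod_cast hY1
  have hLr : (1 : ℝ) ≤ L := by exact_mod_cast hL1
  -- `log x ≤ 4 s' log z`
  have hlogY : Real.log Y ≤ s' * (2 * Real.log z) := by
    have h1 : (Y : ℝ) ≤ ((z : ℝ) ^ 2) ^ s' := by
      have h2 : z + 1 ≤ z ^ 2 := by nlinarith
      have h3 : Y ≤ (z ^ 2) ^ s' := hz2.le.trans (Nat.pow_le_pow_left h2 _)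
      exact_mod_cast h3
    have h2 := Real.log_le_log (by linarith) h1
    rw [Real.log_pow, Real.log_pow] at h2
    push_cast at h2
    exact h2
  have hlogx : Real.log x ≤ 2 * Real.log Y := by
    have h1 : x < MM L * (Y + 1) := by
      rw [hY]
      exact Nat.lt_mul_div_succ x (by omega)
    have h5 : 2 * MM L ≤ Y := by omega
    have h2 : x ≤ Y ^ 2 := by
      calc x ≤ MM L * (Y + 1) := h1.le
        _ ≤ MM L * (2 * Y) := Nat.mul_le_mul_left _ (by omega)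
        _ = 2 * MM L * Y := by ring
        _ ≤ Y * Y := Nat.mul_le_mul_right _ h5
        _ = Y ^ 2 := by ring
    have h3 : (x : ℝ) ≤ (Y : ℝ) ^ 2 := by exact_mod_cast h2
    rcases Nat.eq_zero_or_pos x with h0 | h0
    · rw [h0]
      have : 0 ≤ Real.log Y := Real.log_nonneg hYr
      simp only [Nat.cast_zero, Real.log_zero]
      linarith
    · have h4 := Real.log_le_log (by exact_mod_cast h0) h3
      rw [Real.log_pow] at h4
      exact_mod_cast h4
  have hlx : Real.log x ≤ 4 * s' * Real.log z := by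
    calc Real.log x ≤ 2 * Real.log Y := hlogx
      _ ≤ 2 * (s' * (2 * Real.log z)) := by linarith
      _ = _ := by ring
  have hlx0 : 0 ≤ Real.log x := Real.log_natCast_nonneg _
  obtain ⟨N, hN⟩ : ∃ N, N = ⌊A * Real.log x / L⌋₊ := ⟨_, rfl⟩
  have hNle : (N : ℝ) ≤ A * Real.log x / L := by
    rw [hN]
    exact Nat.floor_le (by positivity)
  have hsub : ((Ioc 0 Y).filter fun j => PrimeLog A x (1 + MM L * j)) ⊆
      (Icc 1 N).biUnion fun t =>
        (Ioc 0 Y).filter fun j => ((1 + MM L * j) * 2 ^ (L * t) + 1).Prime := by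
    intro j hj
    rw [mem_filter] at hj
    obtain ⟨hj1, n, hn1, hnA, hnp⟩ := hj
    have hj0 : 1 ≤ j := (mem_Ioc.1 hj1).1
    have hdvd : L ∣ n := by
      by_contra hnd
      rw [hL] at hnd
      refine fer (k := 1 + MM L * j) hn1 ?_ ?_ hnd hnp
      · have h1 : 1 + MM L * j ≡ 1 + 0 [MOD 2 ^ 2 ^ J - 1] := by
          apply Nat.ModEq.add_left
          rw [Nat.modEq_zero_iff_dvd]
          unfold MM
          rw [hL]
          exact ((dvd_mul_left _ 2).mul_right _)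
        exact h1
      · have : 1 ≤ MM L * j := Nat.mul_pos hM hj0
        omega
    obtain ⟨t, rfl⟩ := hdvd
    rw [mem_biUnion]
    refine ⟨t, mem_Icc.2 ⟨?_, ?_⟩, mem_filter.2 ⟨hj1, hnp⟩⟩
    · rcases Nat.eq_zero_or_pos t with h | h
      · rw [h] at hn1
        omega
      · exact h
    · rw [hN]
      apply Nat.le_floor
      rw [le_div_iff₀ (by linarith)]
      calc (t : ℝ) * L = ((L * t : ℕ) : ℝ) := by push_cast; ring
        _ ≤ _ := hnA
  have hcard : (((Ioc 0 Y).filter fun j => PrimeLog A x (1 + MM L * j)).card : ℝ) ≤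
      N * (2 * (Y * VV L z) + z) := by
    have h1 := (card_le_card hsub).trans card_biUnion_le
    have h2 : (((Ioc 0 Y).filter fun j => PrimeLog A x (1 + MM L * j)).card : ℝ) ≤
        ∑ t ∈ Icc 1 N,
          (((Ioc 0 Y).filter fun j => ((1 + MM L * j) * 2 ^ (L * t) + 1).Prime).card : ℝ) := by
      exact_mod_cast h1
    refine h2.trans ?_
    refine (sum_le_sum fun t _ => one_n hsie L z Y (L * t) hL4 hzz0 hzs hL1).trans ?_
    rw [sum_const, Nat.card_Icc, nsmul_eq_mul]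
    simp
  have hV : VV L z * Real.log z ≤ C := hvup z hz2'
  have hV0 : 0 ≤ VV L z := by
    unfold VV
    apply prod_nonneg
    intro p hp
    unfold PS at hp
    rw [mem_filter, mem_Icc] at hp
    have h1 : (1 : ℝ) ≤ p := by exact_mod_cast hp.1.1
    have : 1 / (p : ℝ) ≤ 1 := by
      rw [div_le_one (by linarith)]
      exact h1
    linarith
  have hzY : (z : ℝ) * Real.log z ≤ Y := by
    have h1 : Real.log z ≤ z := (Real.log_le_sub_one_of_pos (by linarith)).trans (by linarith)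
    have h2 : z ^ 2 ≤ Y := le_trans (Nat.pow_le_pow_right (by omega) (by omega)) hz1
    have h3 : (z : ℝ) ^ 2 ≤ Y := by exact_mod_cast h2
    nlinarith
  have hmain : Real.log x * (2 * (Y * VV L z) + z) ≤ (8 * s' * C + 4 * s') * Y := by
    have hs0 : (0 : ℝ) ≤ s' := Nat.cast_nonneg _
    have e1 : Real.log x * (2 * (Y * VV L z) + z) ≤
        4 * s' * Real.log z * (2 * (Y * VV L z) + z) :=
      mul_le_mul_of_nonneg_right hlx (by positivity)
    have e2 : 4 * s' * Real.log z * (2 * (Y * VV L z) + z) =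
        8 * s' * Y * (VV L z * Real.log z) + 4 * s' * (z * Real.log z) := by ring
    have e3 : 8 * s' * Y * (VV L z * Real.log z) ≤ 8 * s' * Y * C :=
      mul_le_mul_of_nonneg_left hV (by positivity)
    have e4 : 4 * (s' : ℝ) * (z * Real.log z) ≤ 4 * s' * Y :=
      mul_le_mul_of_nonneg_left hzY (by positivity)
    calc _ ≤ _ := e1
      _ = _ := e2
      _ ≤ 8 * s' * Y * C + 4 * s' * Y := by linarith
      _ = _ := by ring
  calc (((Ioc 0 Y).filter fun j => PrimeLog A x (1 + MM L * j)).card : ℝ)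
      ≤ N * (2 * (Y * VV L z) + z) := hcard
    _ ≤ A * Real.log x / L * (2 * (Y * VV L z) + z) :=
        mul_le_mul_of_nonneg_right hNle (by positivity)
    _ = A / L * (Real.log x * (2 * (Y * VV L z) + z)) := by ring
    _ ≤ A / L * ((8 * s' * C + 4 * s') * Y) := mul_le_mul_of_nonneg_left hmain (by positivity)
    _ = _ := by ring

end Pool.Agent.SPT
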